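import Pool.Agent.N781.G.Stm

/-!
# PG/CUB: cubes from the main theorem
-/

set_option autoImplicit false

namespace Pool.Agent.N781.G.CUB

open Pool.Agent.N781.G Finset Pool.Agent.TH575.CW

/-- the coefficients: `n` or `n'` plus the sum of the `h l`, `l ∈ ω` -/
def cc (s k : ℕ) (j : Finset (Fin s) × Bool × Fin k) : Fin (s + 2) → ℕ :=
  Fin.cons (α := fun _ => ℕ) (if j.2.1 = true then 0 else 1)
    (Fin.cons (α := fun _ => ℕ) (if j.2.1 = true then 1 else 0)
      (fun l : Fin s => if l ∈ j.1 then 1 else 0))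

/-- the constants -/
def bb (s : ℕ) {k : ℕ} (b : Fin k → ℕ) (j : Finset (Fin s) × Bool × Fin k) : ℕ := b j.2.2

lemma cc_zero (s k : ℕ) (j : Finset (Fin s) × Bool × Fin k) :
    cc s k j 0 = if j.2.1 = true then 0 else 1 := rfl

lemma cc_one (s k : ℕ) (j : Finset (Fin s) × Bool × Fin k) :
    cc s k j (Fin.succ 0) = if j.2.1 = true then 1 else 0 := rfl

lemma cc_succ (s k : ℕ) (j : Finset (Fin s) × Bool × Fin k) (l : Fin s) :
    cc s k j l.succ.succ = if l ∈ j.1 then 1 else 0 := rfl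

lemma cc_ne (s k : ℕ) (j : Finset (Fin s) × Bool × Fin k) : cc s k j ≠ 0 := by
  intro h
  have h0 := congrFun h 0
  have h1 := congrFun h (Fin.succ 0)
  rw [cc_zero] at h0
  rw [cc_one] at h1
  simp only [Pi.zero_apply] at h0 h1
  by_cases hj : j.2.1 = true
  · rw [if_pos hj] at h1
    exact one_ne_zero h1
  · rw [if_neg hj] at h0
    exact one_ne_zero h0

lemma lin_cc (s k : ℕ) (j : Finset (Fin s) × Bool × Fin k) (n n' : ℕ) (h : Fin s → ℕ) :
    lin (cc s k j) (Fin.cons (α := fun _ => ℕ) n (Fin.cons (α := fun _ => ℕ) n' h)) =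
      (if j.2.1 = true then n' else n) + ∑ l ∈ j.1, h l := by
  unfold lin
  rw [Fin.sum_univ_succ, Fin.sum_univ_succ]
  simp only [cc_zero, cc_one, cc_succ, Fin.cons_zero, Fin.cons_succ]
  have h1 : ∑ l : Fin s, (if l ∈ j.1 then 1 else 0) * h l = ∑ l ∈ j.1, h l := by
    simp
  rw [h1]
  by_cases hj : j.2.1 = true
  · simp only [if_pos hj]
    ring
  · simp only [if_neg hj]
    ring

lemma ib_cons (r y : ℕ) (f : (Fin (r + 1) → ℕ) → ℝ) :
    ∑ z ∈ ib (r + 1) y, f z = ∑ n ∈ Icc 1 y, ∑ z ∈ ib r y, f (Fin.cons (α := fun _ => ℕ) n z) := by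
  rw [← sum_product' (f := fun n z => f (Fin.cons (α := fun _ => ℕ) n z))]
  refine sum_nbij' (fun z => (z 0, fun l => z l.succ))
    (fun p => Fin.cons (α := fun _ => ℕ) p.1 p.2) ?_ ?_ ?_ ?_ ?_
  · intro z hz
    have hz' := Fintype.mem_piFinset.1 hz
    exact mem_product.2 ⟨hz' 0, Fintype.mem_piFinset.2 fun l => hz' l.succ⟩
  · intro p hp
    have hp' := mem_product.1 hp
    refine Fintype.mem_piFinset.2 fun l => ?_
    refine Fin.cases ?_ (fun l => ?_) l
    · exact hp'.1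
    · exact Fintype.mem_piFinset.1 hp'.2 l
  · intro z _
    exact Fin.cons_self_tail z
  · intro p _
    rfl
  · intro z _
    exact congrArg f (Fin.cons_self_tail z).symm

/-- the sum over `n` for fixed `h` -/
noncomputable def Sh {k : ℕ} (b : Fin k → ℕ) (s y : ℕ) (h : Fin s → ℕ) : ℝ :=
  ∑ n ∈ Icc 1 y, ∏ ω : Finset (Fin s), XP b (n + ∑ j ∈ ω, h j)

lemma SF_eq {k : ℕ} (b : Fin k → ℕ) (s y : ℕ) :
    SF (cc s k) (bb s b) y = ∑ h ∈ ib s y, Sh b s y h ^ 2 := by
  unfold SF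
  rw [ib_cons]
  simp only [ib_cons]
  have h1 : ∀ (n n' : ℕ) (h : Fin s → ℕ),
      (∏ j, lam (lin (cc s k j) (Fin.cons (α := fun _ => ℕ) n
        (Fin.cons (α := fun _ => ℕ) n' h)) + bb s b j)) =
      (∏ ω : Finset (Fin s), XP b (n + ∑ j ∈ ω, h j)) *
        (∏ ω : Finset (Fin s), XP b (n' + ∑ j ∈ ω, h j)) := by
    intro n n' h
    simp only [lin_cc]
    rw [Fintype.prod_prod_type]
    simp only [Fintype.prod_prod_type, Fintype.prod_bool, bb]
    rw [← prod_mul_distrib]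
    refine prod_congr rfl fun ω _ => ?_
    unfold XP
    rw [mul_comm]
    simp
  simp only [h1]
  have h2 : ∀ h : Fin s → ℕ, Sh b s y h ^ 2 = ∑ n ∈ Icc 1 y, ∑ n' ∈ Icc 1 y,
      (∏ ω : Finset (Fin s), XP b (n + ∑ j ∈ ω, h j)) *
        (∏ ω : Finset (Fin s), XP b (n' + ∑ j ∈ ω, h j)) := by
    intro h
    rw [sq, Sh, sum_mul_sum]
  simp only [h2]
  exact (sum_congr rfl fun n _ => sum_comm).trans sum_comm

lemma card_ib (r y : ℕ) : (ib r y).card = y ^ r := by
  unfold ib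
  rw [Fintype.card_piFinset_const, Nat.card_Icc]
  simp

lemma cube_sq {k : ℕ} (b : Fin k → ℕ) (s y : ℕ) :
    cube b s y ^ 2 ≤ (y : ℝ) ^ s * SF (cc s k) (bb s b) y := by
  have h := sq_sum_le_card_mul_sum_sq (s := ib s y) (f := fun h => |Sh b s y h|)
  rw [card_ib] at h
  simp only [sq_abs] at h
  rw [SF_eq]
  push_cast at h
  exact h

/-- the embedding onto the cluster -/
def em (s k : ℕ) : Fin k ↪ Finset (Fin s) × Bool × Fin k :=
  ⟨fun j => (∅, false, j), fun _ _ h => congrArg (fun p => p.2.2) h⟩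

lemma clu_eq (s k : ℕ) (j0 : Fin k) :
    clu (cc s k) (∅, false, j0) = univ.map (em s k) := by
  ext ⟨ω, e, j⟩
  simp only [clu, mem_filter, mem_univ, true_and, mem_map]
  have h0 : ∑ l', cc s k (∅, false, j0) l' = 1 := by
    rw [Fin.sum_univ_succ, Fin.sum_univ_succ, cc_zero, cc_one]
    simp only [cc_succ]
    simp
  constructor
  · intro h
    rw [h0] at h
    have h1 := h (Fin.succ 0)
    rw [cc_one, cc_one] at h1
    have he : e = false := by
      by_contra hc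
      simp [hc] at h1
    have h2 : ω = ∅ := by
      by_contra hc
      obtain ⟨l, hl⟩ := nonempty_iff_ne_empty.2 hc
      have h3 := h l.succ.succ
      rw [cc_succ, cc_succ] at h3
      simp [hl] at h3
    exact ⟨j, by rw [he, h2]; rfl⟩
  · rintro ⟨x, hx⟩ l
    have hx1 : ω = ∅ := (congrArg (fun p => p.1) hx).symm
    have hx2 : e = false := (congrArg (fun p => p.2.1) hx).symm
    subst hx1 hx2
    rfl

lemma good (s : ℕ) {k : ℕ} (b : Fin k → ℕ) (hb : Function.Injective b) (hk : Odd k ∨ k = 2) :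
    Good (cc s k) (bb s b) := by
  rcases hk with hk | hk
  · have hk0 : 0 < k := hk.pos
    refine ⟨(∅, false, ⟨0, hk0⟩), Or.inl ?_⟩
    rw [clu_eq, card_map, card_univ, Fintype.card_fin]
    exact hk
  · subst hk
    refine ⟨(∅, false, 0), Or.inr ⟨(∅, false, 0), ?_, ?_⟩⟩
    · rw [clu_eq]
      exact mem_map.2 ⟨0, mem_univ _, rfl⟩
    · have hv : ∀ j : Fin 2, ∑ l, (cc s 2 ((∅ : Finset (Fin s)), false, j) l : ℤ) *
          (Pi.single (0 : Fin (s + 2)) (-(b 1 : ℤ)) : Fin (s + 2) → ℤ) l = -(b 1 : ℤ) := by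
        intro j
        rw [sum_eq_single (0 : Fin (s + 2))]
        · rw [cc_zero]
          simp
        · intro l _ hl
          rw [Pi.single_eq_of_ne hl, mul_zero]
        · intro h
          exact absurd (mem_univ _) h
      refine ⟨Pi.single (0 : Fin (s + 2)) (-(b 1 : ℤ)), 1, ?_, ?_⟩
      · rw [hv 0]
        show -(b 1 : ℤ) + (b 0 : ℤ) * 1 ≠ 0
        intro h
        have h1 : (b 0 : ℤ) = b 1 := by linarith
        have h2 : b 0 = b 1 := by exact_mod_cast h1
        have h3 := hb h2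
        exact absurd h3 (by decide)
      · intro j hj hj1
        rw [clu_eq] at hj
        obtain ⟨x, _, hx2⟩ := mem_map.1 hj
        have hx3 : j = (∅, false, x) := hx2.symm
        subst hx3
        rw [hv x]
        have hx : x = 1 := by
          have hx0 : x ≠ 0 := fun h => hj1 (by rw [h])
          omega
        rw [hx]
        show -(b 1 : ℤ) + (b 1 : ℤ) * 1 = 0
        ring

theorem t_CUB : S_MAIN → S_CUB := by
  classical
  intro hM k b hb hk s ε hε
  obtain ⟨C, hC⟩ := hM (s + 2) _ (cc s k) (bb s b) (cc_ne s k) (good s b hb hk) (ε ^ 2)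
    (by positivity)
  refine ⟨C, fun J => ?_⟩
  obtain ⟨N₀, hN₀⟩ := hC J
  refine ⟨N₀, fun N hN => le_trans ?_ (hN₀ N hN)⟩
  refine sum_le_sum_of_subset_of_nonneg ?_ (fun i _ _ => by positivity)
  intro i hi
  unfold ex at hi ⊢
  rw [mem_filter] at hi ⊢
  refine ⟨hi.1, ?_⟩
  obtain ⟨y, hy1, hy2, hy3⟩ := hi.2
  refine ⟨y, hy1, hy2, ?_⟩
  rcases Nat.eq_zero_or_pos y with h0 | h0
  · exfalso
    subst h0
    simp at hy3
    linarith
  have hy : (0 : ℝ) < y := by exact_mod_cast h0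
  have h1 : ε ^ 2 < (cube b s y / (y : ℝ) ^ (s + 1)) ^ 2 := by
    exact pow_lt_pow_left₀ hy3 hε.le (by norm_num)
  have h2 : (cube b s y / (y : ℝ) ^ (s + 1)) ^ 2 ≤ SF (cc s k) (bb s b) y / (y : ℝ) ^ (s + 2) := by
    rw [div_pow, div_le_div_iff₀ (by positivity) (by positivity)]
    calc cube b s y ^ 2 * (y : ℝ) ^ (s + 2) ≤
        ((y : ℝ) ^ s * SF (cc s k) (bb s b) y) * (y : ℝ) ^ (s + 2) :=
          mul_le_mul_of_nonneg_right (cube_sq b s y) (by positivity)
      _ = SF (cc s k) (bb s b) y * ((y : ℝ) ^ (s + 1)) ^ 2 := by ring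
  have h3 : SF (cc s k) (bb s b) y / (y : ℝ) ^ (s + 2) ≤
      |SF (cc s k) (bb s b) y| / (y : ℝ) ^ (s + 2) :=
    div_le_div_of_nonneg_right (le_abs_self _) (by positivity)
  exact lt_of_lt_of_le h1 (h2.trans h3)

end Pool.Agent.N781.G.CUB
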