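import Mathlib
import Pool.Agent.TH575.CW.Ent

/-! Project G (affine forms in several variables at fixed shifts, at all but few dyadic scales):
definitions and statements. -/

set_option autoImplicit false

namespace Pool.Agent.N781.G

open Finset Pool.Agent.TH575.CW

/-- `[0, N) ^ r` -/
def rb (r N : ℕ) : Finset (Fin r → ℕ) := Fintype.piFinset fun _ => range N

/-- `[1, y] ^ r` -/
def ib (r y : ℕ) : Finset (Fin r → ℕ) := Fintype.piFinset fun _ => Icc 1 y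

/-- the linear form with coefficients `c` -/
def lin {r : ℕ} (c z : Fin r → ℕ) : ℕ := ∑ l, c l * z l

/-- the cyclic product -/
def Phi {ι T : Type} [Fintype ι] {r : ℕ} (v : T → ℝ) (c : ι → Fin r → ℕ) (X : ι → ℕ → T) (N : ℕ)
    (u : ι → ℕ) (z : Fin r → ℕ) : ℝ :=
  ∏ j, v (X j ((lin (c j) z + u j) % N))

/-- the weight: the coordinates `l < g` are averaged -/
noncomputable def wt {r : ℕ} (g p : ℕ) (z a : Fin r → ℕ) : ℝ :=
  ∏ l : Fin r, if l.val < g then (1 : ℝ) / p else if p ∣ z l + a l then 1 else 0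

/-- the averages over the cube `z + [0, 2 ^ i) ^ r` -/
noncomputable def Av {r : ℕ} (g p i : ℕ) (f : (Fin r → ℕ) → ℝ) (z : Fin r → ℕ) : ℝ :=
  ∑ a ∈ rb r (2 ^ i), wt g p z a * f (fun l => z l + a l)

/-- decoupling of one coordinate -/
def S_DEC : Prop :=
  ∀ (r : ℕ) (ι T : Type) [Fintype ι] [Fintype T] [Nonempty T] (v : T → ℝ), (∀ t, |v t| ≤ 1) →
  ∀ (c : ι → Fin r → ℕ) (B : ℕ) (g : Fin r) (ε : ℝ), 0 < ε →
  ∃ (C : ℝ) (i0 : ℕ), 0 < C ∧ 1 ≤ i0 ∧ ∀ J N : ℕ, 1 ≤ N →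
    (∀ p : ℕ, p.Prime → p ≤ 2 ^ (J + 1) → p ∣ N) → ∀ X : ι → ℕ → T,
    ∃ Bad : Finset ℕ, Bad ⊆ Icc i0 J ∧ ∑ i ∈ Bad, 1 / (i : ℝ) ≤ C ∧ ∀ i ∈ Icc i0 J, i ∉ Bad →
      ∀ θ : ℕ → ℝ, (∀ p, |θ p| ≤ 1) → ∀ u : ℕ → ι → ℕ,
      (∀ p ∈ QD i (i + 1), ∀ j, u p j ≤ B * 2 ^ (i + 1)) →
      ∑ z ∈ rb r N, |∑ p ∈ QD i (i + 1), Real.log p / 2 ^ i *
        (θ p * (Av g.val p i (Phi v c X N (u p)) z - Av (g.val + 1) p i (Phi v c X N (u p)) z))| ≤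
      ε * (N : ℝ) ^ r

/-- sums of the two extreme averages over the whole torus -/
def S_SHI : Prop :=
  ∀ (r : ℕ) (ι T : Type) [Fintype ι] (v : T → ℝ) (c : ι → Fin r → ℕ) (X : ι → ℕ → T) (N p i : ℕ)
    (u : ι → ℕ), 1 ≤ N → 1 ≤ p → p ∣ N →
    ∑ z ∈ rb r N, Av 0 p i (Phi v c X N u) z =
      (2 ^ i) ^ r * ∑ z ∈ rb r N, (if ∀ l, p ∣ z l then Phi v c X N u z else 0) ∧
    ∑ z ∈ rb r N, Av r p i (Phi v c X N u) z =
      (2 ^ i) ^ r / (p : ℝ) ^ r * ∑ z ∈ rb r N, Phi v c X N u z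

/-- the functions extended by the indicator functions of `1 ≤ z l ≤ y` -/
def XX {ι : Type} (r : ℕ) (F : ι → ℕ → SignType) (y : ℕ) : ι ⊕ Fin r → ℕ → SignType :=
  Sum.elim F (fun _ m => if 1 ≤ m ∧ m ≤ y then 1 else 0)

/-- the coefficients extended by the coordinate forms -/
def cX {ι : Type} {r : ℕ} (c : ι → Fin r → ℕ) : ι ⊕ Fin r → Fin r → ℕ :=
  Sum.elim c (fun l => Pi.single l 1)

/-- the displacements -/
def uX {ι : Type} (r : ℕ) (b : ι → ℕ) (p : ℕ) : ι ⊕ Fin r → ℕ := Sum.elim (fun j => b j * p) (fun _ => 0)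

/-- from the torus to the box -/
def S_UNF : Prop :=
  ∀ (r : ℕ) (ι : Type) [Fintype ι] (c : ι → Fin r → ℕ) (b : ι → ℕ) (F : ι → ℕ → SignType)
    (N y p : ℕ), 1 ≤ p → y < N → (∀ z ∈ ib r y, ∀ j, lin (c j) z + b j * p < N) →
    ∑ z ∈ rb r N, Phi (fun s : SignType => (s : ℝ)) (cX c) (XX r F y) N (uX r b p) z =
      ∑ z ∈ ib r y, ∏ j, ((F j (lin (c j) z + b j * p) : SignType) : ℝ) ∧
    ∑ z ∈ rb r N, (if ∀ l, p ∣ z l then
      Phi (fun s : SignType => (s : ℝ)) (cX c) (XX r F y) N (uX r b p) z else 0) =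
      ∑ z ∈ ib r (y / p), ∏ j, ((F j (p * (lin (c j) z + b j)) : SignType) : ℝ)

/-- the Liouville function, `1` at `0` -/
noncomputable def lam (m : ℕ) : ℝ := (-1) ^ ArithmeticFunction.cardFactors m

/-- the forms proportional to the form `j₀` -/
def clu {ι : Type} [Fintype ι] {r : ℕ} (c : ι → Fin r → ℕ) (j₀ : ι) : Finset ι :=
  Finset.univ.filter fun j => ∀ l, (∑ l', c j l') * c j₀ l = (∑ l', c j₀ l') * c j l

/-- some cluster is odd or has a member which varies in a direction in which the others do not -/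
def Good {ι : Type} [Fintype ι] {r : ℕ} (c : ι → Fin r → ℕ) (b : ι → ℕ) : Prop :=
  ∃ j₀, Odd (clu c j₀).card ∨ ∃ j₁ ∈ clu c j₀, ∃ (v : Fin r → ℤ) (t : ℤ),
    ∑ l, (c j₁ l : ℤ) * v l + b j₁ * t ≠ 0 ∧
    ∀ j ∈ clu c j₀, j ≠ j₁ → ∑ l, (c j l : ℤ) * v l + b j * t = 0

/-- cancellation along prime dilates of the constants -/
def S_PRD : Prop :=
  ∀ (r : ℕ) (ι : Type) [Fintype ι] (c : ι → Fin r → ℕ) (b : ι → ℕ), (∀ j, c j ≠ 0) → Good c b →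
  ∀ ε : ℝ, 0 < ε → ∃ i1 : ℕ, ∀ J : ℕ, ∃ y0 : ℕ, ∀ y : ℕ, y0 ≤ y → ∀ i ∈ Icc i1 J,
    ∑ p ∈ QD i (i + 1), Real.log p / 2 ^ i *
      |∑ z ∈ ib r y, ∏ j, lam (lin (c j) z + b j * p)| ≤ ε * (y : ℝ) ^ r

/-- the sum at the fixed constants -/
noncomputable def SF {ι : Type} [Fintype ι] {r : ℕ} (c : ι → Fin r → ℕ) (b : ι → ℕ) (y : ℕ) : ℝ :=
  ∑ z ∈ ib r y, ∏ j, lam (lin (c j) z + b j)

open Classical in
/-- the exceptional scales of `X` -/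
noncomputable def ex (X : ℕ → ℝ) (ε : ℝ) (J N : ℕ) : Finset ℕ :=
  (Icc 1 J).filter (fun i => ∃ y : ℕ, N / 2 ^ (i + 1) ≤ y ∧ y ≤ N / 2 ^ i ∧ ε < X y)

/-- `X` is small at all but few scales -/
def Few (X : ℕ → ℝ) : Prop :=
  ∀ ε : ℝ, 0 < ε → ∃ C : ℝ, ∀ J : ℕ, ∃ N₀ : ℕ, ∀ N : ℕ, N₀ ≤ N →
    ∑ i ∈ ex X ε J N, 1 / (i : ℝ) ≤ C

/-- the main theorem -/
def S_MAIN : Prop :=
  ∀ (r : ℕ) (ι : Type) [Fintype ι] (c : ι → Fin r → ℕ) (b : ι → ℕ), (∀ j, c j ≠ 0) → Good c b →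
    Few (fun y => |SF c b y| / (y : ℝ) ^ r)

/-- the product of the values at `n + b j` -/
noncomputable def XP {k : ℕ} (b : Fin k → ℕ) (n : ℕ) : ℝ := ∏ j, lam (n + b j)

/-- cubes -/
noncomputable def cube {k : ℕ} (b : Fin k → ℕ) (s y : ℕ) : ℝ :=
  ∑ h ∈ ib s y, |∑ n ∈ Icc 1 y, ∏ ω : Finset (Fin s), XP b (n + ∑ j ∈ ω, h j)|

/-- Gowers uniformity of all orders -/
def S_CUB : Prop :=
  ∀ (k : ℕ) (b : Fin k → ℕ), Function.Injective b → (Odd k ∨ k = 2) → ∀ s : ℕ,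
    Few (fun y => cube b s y / (y : ℝ) ^ (s + 1))

/-- all additive twists -/
def S_TWI : Prop :=
  ∀ (k : ℕ) (b : Fin k → ℕ), Function.Injective b → (Odd k ∨ k = 2) →
    Few (fun y => (⨆ α : ℝ, ‖∑ n ∈ Icc 1 y, (XP b n : ℂ) * Complex.exp (2 * Real.pi * Complex.I * α * n)‖) / y)

end Pool.Agent.N781.G
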