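import Mathlib
import Pool.Agent.N781.G.Stm

/-! Project G: decoupling of one coordinate. -/

set_option autoImplicit false

namespace Pool.Agent.N781.G.DEC

open Pool.Agent.N781.G Finset Pool.Agent.TH575.CW

section

variable {r : ℕ}

lemma lin_update (c z : Fin r → ℕ) (g : Fin r) (n : ℕ) :
    lin c (Function.update z g n) = lin c (Function.update z g 0) + c g * n := by
  unfold lin
  rw [← Finset.add_sum_erase univ _ (mem_univ g), ← Finset.add_sum_erase univ
    (fun l => c l * Function.update z g 0 l) (mem_univ g)]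
  simp only [Function.update_self, mul_zero, zero_add]
  rw [add_comm]
  congr 1
  refine sum_congr rfl fun l hl => ?_
  rw [Function.update_of_ne (ne_of_mem_erase hl), Function.update_of_ne (ne_of_mem_erase hl)]

lemma lin_add (c z a : Fin r → ℕ) : lin c (fun l => z l + a l) = lin c z + lin c a := by
  unfold lin
  rw [← sum_add_distrib]
  exact sum_congr rfl fun l _ => by ring

/-- the factors of the other coordinates -/
noncomputable def PP (g : Fin r) (p : ℕ) (z a : Fin r → ℕ) : ℝ :=
  ∏ l ∈ univ.erase g, if l.val < g.val then (1 : ℝ) / p else if p ∣ z l + a l then 1 else 0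

lemma wt_g (g : Fin r) (p s : ℕ) (z a : Fin r → ℕ) :
    wt g.val p (Function.update z g s) a = (if p ∣ s + a g then 1 else 0) * PP g p z a := by
  unfold wt PP
  rw [← Finset.mul_prod_erase univ _ (mem_univ g)]
  simp only [lt_irrefl, if_false, Function.update_self]
  congr 1
  refine prod_congr rfl fun l hl => ?_
  rw [Function.update_of_ne (ne_of_mem_erase hl)]

lemma wt_g1 (g : Fin r) (p n : ℕ) (z a : Fin r → ℕ) :
    wt (g.val + 1) p (Function.update z g n) a = 1 / p * PP g p z a := by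
  unfold wt PP
  rw [← Finset.mul_prod_erase univ _ (mem_univ g)]
  simp only [Nat.lt_succ_self, if_true]
  congr 1
  refine prod_congr rfl fun l hl => ?_
  rw [Function.update_of_ne (ne_of_mem_erase hl)]
  have hne : l.val ≠ g.val := fun h => (ne_of_mem_erase hl) (Fin.ext h)
  have hiff : (l.val < g.val + 1) ↔ l.val < g.val := by omega
  simp only [hiff]

lemma wt_mod (g : Fin r) (p n : ℕ) (z a : Fin r → ℕ) :
    wt g.val p (Function.update z g (n % p)) a = wt g.val p (Function.update z g n) a := by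
  rw [wt_g, wt_g]
  have : p ∣ n % p + a g ↔ p ∣ n + a g := by
    rw [Nat.dvd_iff_mod_eq_zero, Nat.dvd_iff_mod_eq_zero, Nat.mod_add_mod]
  simp only [this]

lemma one_res (p b : ℕ) (hp : 0 < p) : ∑ s ∈ range p, (if p ∣ s + b then (1 : ℝ) else 0) = 1 := by
  rw [Finset.sum_eq_single_of_mem ((p - b % p) % p) (mem_range.2 (Nat.mod_lt _ hp))]
  · rw [if_pos]
    have hb : b % p < p := Nat.mod_lt _ hp
    have h1 : ((p - b % p) % p + b) % p = 0 := by
      calc ((p - b % p) % p + b) % p = ((p - b % p) + b) % p := Nat.mod_add_mod _ _ _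
        _ = ((p - b % p) + b % p) % p := (Nat.add_mod_mod _ _ _).symm
        _ = 0 := by rw [Nat.sub_add_cancel hb.le, Nat.mod_self]
    exact Nat.dvd_of_mod_eq_zero h1
  · intro s hs hne
    rw [if_neg]
    intro hd
    apply hne
    have hb : b % p < p := Nat.mod_lt _ hp
    have hs' := mem_range.1 hs
    have h1 : (s + b % p) % p = 0 := by
      rw [Nat.add_mod_mod]
      exact Nat.mod_eq_zero_of_dvd hd
    obtain ⟨m, hm⟩ := Nat.dvd_of_mod_eq_zero h1
    have hm2 : m < 2 := by
      by_contra hcon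
      push Not at hcon
      have : p * 2 ≤ p * m := Nat.mul_le_mul_left _ hcon
      omega
    interval_cases m
    · have : s = 0 ∧ b % p = 0 := by omega
      rw [this.1, this.2, Nat.sub_zero, Nat.mod_self]
    · have h2 : s = p - b % p := by omega
      have h3 : p - b % p < p := by omega
      rw [h2]
      exact (Nat.mod_eq_of_lt h3).symm

lemma sum_wt (g : Fin r) (p n : ℕ) (hp : 0 < p) (z a : Fin r → ℕ) :
    (∑ s ∈ range p, wt g.val p (Function.update z g s) a) / p =
      wt (g.val + 1) p (Function.update z g n) a := by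
  rw [wt_g1]
  simp only [wt_g]
  rw [← sum_mul, one_res p (a g) hp]
  ring

lemma wt_nonneg (g p : ℕ) (z a : Fin r → ℕ) : 0 ≤ wt g p z a := by
  unfold wt
  refine prod_nonneg fun l _ => ?_
  split_ifs <;> positivity

lemma sum_wt_le (g p i : ℕ) (hp : 2 ^ i < p) (z : Fin r → ℕ) :
    ∑ a ∈ rb r (2 ^ i), wt g p z a ≤ 1 := by
  unfold rb wt
  rw [← Finset.prod_univ_sum (fun _ : Fin r => range (2 ^ i))
    (fun (l : Fin r) (x : ℕ) => if l.val < g then (1 : ℝ) / p else if p ∣ z l + x then 1 else 0)]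
  refine prod_le_one (fun l _ => sum_nonneg fun x _ => by split_ifs <;> positivity) (fun l _ => ?_)
  have hp0 : (0 : ℝ) < p := by
    have : 0 < p := lt_of_le_of_lt (Nat.zero_le _) hp
    exact_mod_cast this
  by_cases hl : l.val < g
  · simp only [if_pos hl]
    rw [sum_const, card_range, nsmul_eq_mul, mul_one_div, div_le_one hp0]
    exact_mod_cast hp.le
  · simp only [if_neg hl]
    rw [← sum_filter, sum_const, nsmul_eq_mul, mul_one]
    have hc : ((range (2 ^ i)).filter (fun x => p ∣ z l + x)).card ≤ 1 := by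
      rw [Finset.card_le_one]
      intro x hx x' hx'
      rw [mem_filter, mem_range] at hx hx'
      rcases le_total x x' with h | h
      · have h1 : p ∣ (z l + x') - (z l + x) := Nat.dvd_sub hx'.2 hx.2
        have h2 : (z l + x') - (z l + x) = x' - x := by omega
        rw [h2] at h1
        have h3 := Nat.eq_zero_of_dvd_of_lt h1 (by omega)
        omega
      · have h1 : p ∣ (z l + x) - (z l + x') := Nat.dvd_sub hx.2 hx'.2
        have h2 : (z l + x) - (z l + x') = x - x' := by omega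
        rw [h2] at h1
        have h3 := Nat.eq_zero_of_dvd_of_lt h1 (by omega)
        omega
    exact_mod_cast hc

lemma avg_abs (g p i : ℕ) (hp : 2 ^ i < p) (z : Fin r → ℕ) (F : (Fin r → ℕ) → ℝ)
    (hF : ∀ a, |F a| ≤ 1) : |∑ a ∈ rb r (2 ^ i), wt g p z a * F a| ≤ 1 := by
  refine (abs_sum_le_sum_abs _ _).trans (le_trans (sum_le_sum fun a _ => ?_) (sum_wt_le g p i hp z))
  rw [abs_mul, abs_of_nonneg (wt_nonneg g p z a)]
  exact mul_le_of_le_one_right (wt_nonneg g p z a) (hF a)

lemma swap (N : ℕ) (g : Fin r) (G : (Fin r → ℕ) → ℝ) :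
    ∑ z ∈ rb r N, ∑ n ∈ range N, G (Function.update z g n) = N * ∑ z ∈ rb r N, G z := by
  rw [← Finset.sum_product']
  have h1 : (N : ℝ) * ∑ z ∈ rb r N, G z = ∑ q ∈ rb r N ×ˢ range N, G q.1 := by
    rw [Finset.sum_product]
    simp only [sum_const, card_range, nsmul_eq_mul]
    rw [mul_sum]
  rw [h1]
  refine Finset.sum_nbij' (fun q => (Function.update q.1 g q.2, q.1 g))
    (fun q => (Function.update q.1 g q.2, q.1 g)) ?_ ?_ ?_ ?_ ?_
  · intro q hq
    rw [mem_product] at hq ⊢
    unfold rb at hq ⊢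
    rw [Fintype.mem_piFinset] at hq ⊢
    refine ⟨fun l => ?_, hq.1 g⟩
    show Function.update q.1 g q.2 l ∈ range N
    by_cases hl : l = g
    · subst hl
      rw [Function.update_self]
      exact hq.2
    · rw [Function.update_of_ne hl]
      exact hq.1 l
  · intro q hq
    rw [mem_product] at hq ⊢
    unfold rb at hq ⊢
    rw [Fintype.mem_piFinset] at hq ⊢
    refine ⟨fun l => ?_, hq.1 g⟩
    show Function.update q.1 g q.2 l ∈ range N
    by_cases hl : l = g
    · subst hl
      rw [Function.update_self]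
      exact hq.2
    · rw [Function.update_of_ne hl]
      exact hq.1 l
  · intro q _
    simp
  · intro q _
    simp
  · intro q _
    rfl

lemma card_rb (N : ℕ) : ((rb r N).card : ℝ) = (N : ℝ) ^ r := by
  unfold rb
  rw [Fintype.card_piFinset]
  simp

end

section

variable {r : ℕ} {ι T : Type}

/-- the letters -/
def let_ (c : ι → Fin r → ℕ) (g : Fin r) (X : ι → ℕ → T) (N : ℕ) (z : Fin r → ℕ) (n : ℕ) :
    (j : ι) → Fin (c j g) → T :=
  fun j s => X j ((lin (c j) (Function.update z g 0) + c j g * n + (s : ℕ)) % N)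

lemma let_per (c : ι → Fin r → ℕ) (g : Fin r) (X : ι → ℕ → T) (N : ℕ) (z : Fin r → ℕ) (n : ℕ) :
    let_ c g X N z (n + N) = let_ c g X N z n := by
  unfold let_
  funext j s
  congr 1
  have : lin (c j) (Function.update z g 0) + c j g * (n + N) + (s : ℕ) =
      lin (c j) (Function.update z g 0) + c j g * n + (s : ℕ) + N * c j g := by ring
  rw [this, Nat.add_mul_mod_self_left]

lemma arg (c : ι → Fin r → ℕ) (g : Fin r) (z a : Fin r → ℕ) (j : ι) (n u : ℕ) :
    lin (c j) (fun l => Function.update z g n l + a l) + u =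
      lin (c j) (Function.update z g 0) + c j g * n + (lin (c j) a + u) := by
  rw [lin_add, lin_update]
  ring

lemma Phi_win [Fintype ι] (v : T → ℝ) (c : ι → Fin r → ℕ) (g : Fin r) (X : ι → ℕ → T) (N W : ℕ)
    (u : ι → ℕ) (z a : Fin r → ℕ) (hW : ∀ j, lin (c j) a + u j < W) (n n' : ℕ)
    (h : win W (let_ c g X N z) n = win W (let_ c g X N z) n') :
    Phi v c X N u (fun l => Function.update z g n l + a l) =
      Phi v c X N u (fun l => Function.update z g n' l + a l) := by
  unfold Phi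
  refine prod_congr rfl fun j _ => ?_
  rw [arg, arg]
  by_cases h0 : c j g = 0
  · rw [h0, zero_mul, zero_mul]
  · have h0' : 0 < c j g := Nat.pos_of_ne_zero h0
    have hq : (lin (c j) a + u j) / c j g < W :=
      lt_of_le_of_lt (Nat.div_le_self _ _) (hW j)
    have h1 := congrFun h ⟨_, hq⟩
    have h2 := congrFun (congrFun h1 j) ⟨(lin (c j) a + u j) % c j g, Nat.mod_lt _ h0'⟩
    unfold win let_ at h2
    simp only at h2
    have h3 : ∀ m : ℕ, lin (c j) (Function.update z g 0) + c j g * (m + (lin (c j) a + u j) / c j g) +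
        (lin (c j) a + u j) % c j g =
        lin (c j) (Function.update z g 0) + c j g * m + (lin (c j) a + u j) := by
      intro m
      have := Nat.div_add_mod (lin (c j) a + u j) (c j g)
      calc _ = lin (c j) (Function.update z g 0) + c j g * m +
            (c j g * ((lin (c j) a + u j) / c j g) + (lin (c j) a + u j) % c j g) := by ring
        _ = _ := by rw [this]
    rw [h3, h3] at h2
    rw [h2]

lemma Phi_abs [Fintype ι] (v : T → ℝ) (hv : ∀ t, |v t| ≤ 1) (c : ι → Fin r → ℕ) (X : ι → ℕ → T)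
    (N : ℕ) (u : ι → ℕ) (z : Fin r → ℕ) : |Phi v c X N u z| ≤ 1 := by
  unfold Phi
  rw [abs_prod]
  exact prod_le_one (fun _ _ => abs_nonneg _) (fun j _ => hv _)

/-- the sum over the cube with the residue `s` -/
noncomputable def EE [Fintype ι] (v : T → ℝ) (c : ι → Fin r → ℕ) (g : Fin r) (X : ι → ℕ → T)
    (N i : ℕ) (θ : ℕ → ℝ) (u : ℕ → ι → ℕ) (z : Fin r → ℕ) (p n s : ℕ) : ℝ :=
  θ p * ∑ a ∈ rb r (2 ^ i), wt g.val p (Function.update z g s) a *
    Phi v c X N (u p) (fun l => Function.update z g n l + a l)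

open Classical in
/-- the function of window and residue -/
noncomputable def ze [Fintype ι] (v : T → ℝ) (c : ι → Fin r → ℕ) (g : Fin r) (X : ι → ℕ → T)
    (N i : ℕ) (θ : ℕ → ℝ) (u : ℕ → ι → ℕ) (z : Fin r → ℕ) (W p : ℕ)
    (d : Fin W → (j : ι) → Fin (c j g) → T) (s : ℕ) : ℝ :=
  if p ∈ QD i (i + 1) then
    if h : ∃ n, win W (let_ c g X N z) n = d then EE v c g X N i θ u z p h.choose s else 0 else 0

lemma QD_lt {i p : ℕ} (h : p ∈ QD i (i + 1)) : 2 ^ i < p := by
  unfold QD at h
  rw [mem_filter, mem_Ioc] at h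
  exact h.1.1

lemma EE_abs [Fintype ι] (v : T → ℝ) (hv : ∀ t, |v t| ≤ 1) (c : ι → Fin r → ℕ) (g : Fin r)
    (X : ι → ℕ → T) (N i : ℕ) (θ : ℕ → ℝ) (hθ : ∀ p, |θ p| ≤ 1) (u : ℕ → ι → ℕ) (z : Fin r → ℕ)
    (p n s : ℕ) (hp : p ∈ QD i (i + 1)) : |EE v c g X N i θ u z p n s| ≤ 1 := by
  unfold EE
  rw [abs_mul]
  exact mul_le_one₀ (hθ p) (abs_nonneg _) (avg_abs _ _ _ (QD_lt hp) _ _
    (fun a => Phi_abs v hv c X N _ _))

lemma ze_abs [Fintype ι] (v : T → ℝ) (hv : ∀ t, |v t| ≤ 1) (c : ι → Fin r → ℕ) (g : Fin r)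
    (X : ι → ℕ → T) (N i : ℕ) (θ : ℕ → ℝ) (hθ : ∀ p, |θ p| ≤ 1) (u : ℕ → ι → ℕ) (z : Fin r → ℕ)
    (W p : ℕ) (d : Fin W → (j : ι) → Fin (c j g) → T) (s : ℕ) :
    |ze v c g X N i θ u z W p d s| ≤ 1 := by
  unfold ze
  split_ifs with h1 h2
  · exact EE_abs v hv c g X N i θ hθ u z p _ s h1
  · simp
  · simp

lemma ze_win [Fintype ι] (v : T → ℝ) (c : ι → Fin r → ℕ) (g : Fin r)
    (X : ι → ℕ → T) (N i : ℕ) (θ : ℕ → ℝ) (u : ℕ → ι → ℕ) (z : Fin r → ℕ)
    (W p : ℕ) (hp : p ∈ QD i (i + 1)) (hW : ∀ j, ∀ a ∈ rb r (2 ^ i), lin (c j) a + u p j < W)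
    (n s : ℕ) :
    ze v c g X N i θ u z W p (win W (let_ c g X N z) n) s = EE v c g X N i θ u z p n s := by
  unfold ze
  have h : ∃ m, win W (let_ c g X N z) m = win W (let_ c g X N z) n := ⟨n, rfl⟩
  rw [if_pos hp, dif_pos h]
  unfold EE
  congr 1
  refine sum_congr rfl fun a ha => ?_
  rw [Phi_win v c g X N W (u p) z a (fun j => hW j a ha) _ n h.choose_spec]

lemma EE_mod [Fintype ι] (v : T → ℝ) (c : ι → Fin r → ℕ) (g : Fin r)
    (X : ι → ℕ → T) (N i : ℕ) (θ : ℕ → ℝ) (u : ℕ → ι → ℕ) (z : Fin r → ℕ) (p n : ℕ) :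
    EE v c g X N i θ u z p n (n % p) =
      θ p * Av g.val p i (Phi v c X N (u p)) (Function.update z g n) := by
  unfold EE Av
  congr 1
  refine sum_congr rfl fun a _ => ?_
  rw [wt_mod]

lemma EE_sum [Fintype ι] (v : T → ℝ) (c : ι → Fin r → ℕ) (g : Fin r)
    (X : ι → ℕ → T) (N i : ℕ) (θ : ℕ → ℝ) (u : ℕ → ι → ℕ) (z : Fin r → ℕ) (p n : ℕ) (hp : 0 < p) :
    (∑ s ∈ range p, EE v c g X N i θ u z p n s) / p =
      θ p * Av (g.val + 1) p i (Phi v c X N (u p)) (Function.update z g n) := by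
  unfold EE Av
  rw [← mul_sum, mul_div_assoc]
  congr 1
  rw [sum_comm, sum_div]
  refine sum_congr rfl fun a _ => ?_
  rw [← sum_mul, ← sum_wt g p n hp z a]
  ring

end

theorem t_DEC : S_DEC := by
  classical
  intro r ι T _ _ _ v hv c B g ε hε
  set S : ℕ := ∑ j, ∑ l, c j l with hS
  set W : ℕ := 2 * B + S + 1 with hW
  obtain ⟨C0, i0, hC0, hi0, hdec⟩ := decouple ((j : ι) → Fin (c j g) → T) W (ε / 2) (by positivity)
  refine ⟨C0 * 12 / ε, i0, by positivity, hi0, fun J N hN hd X => ?_⟩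
  choose Bz hB1 hB2 hB3 using fun z : Fin r → ℕ =>
    hdec J N hN hd (let_ c g X N z) (let_per c g X N z)
  have hN0 : (0 : ℝ) < N := by exact_mod_cast hN
  have hNr : (0 : ℝ) < (N : ℝ) ^ r := by positivity
  set Bad : Finset ℕ := (Icc i0 J).filter (fun i =>
    ε / 12 * (N : ℝ) ^ r < (((rb r N).filter (fun z => i ∈ Bz z)).card : ℝ)) with hBad
  refine ⟨Bad, filter_subset _ _, ?_, ?_⟩
  · have h1 : ε / 12 * (N : ℝ) ^ r * ∑ i ∈ Bad, 1 / (i : ℝ) ≤ C0 * (N : ℝ) ^ r := by
      calc ε / 12 * (N : ℝ) ^ r * ∑ i ∈ Bad, 1 / (i : ℝ)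
          ≤ ∑ i ∈ Bad, ∑ z ∈ rb r N, (if i ∈ Bz z then 1 / (i : ℝ) else 0) := by
            rw [mul_sum]
            refine sum_le_sum fun i hi => ?_
            rw [← sum_filter, sum_const, nsmul_eq_mul]
            exact mul_le_mul_of_nonneg_right (mem_filter.1 hi).2.le (by positivity)
        _ = ∑ z ∈ rb r N, ∑ i ∈ Bad, (if i ∈ Bz z then 1 / (i : ℝ) else 0) := sum_comm
        _ ≤ ∑ z ∈ rb r N, C0 := by
            refine sum_le_sum fun z _ => ?_
            rw [← sum_filter]
            refine le_trans (sum_le_sum_of_subset_of_nonneg ?_ ?_) (hB2 z)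
            · intro i hi
              exact (mem_filter.1 hi).2
            · intro i _ _
              positivity
        _ = C0 * (N : ℝ) ^ r := by
            rw [sum_const, nsmul_eq_mul, card_rb, mul_comm]
    rw [le_div_iff₀ hε]
    have h2 : (N : ℝ) ^ r * ((∑ i ∈ Bad, 1 / (i : ℝ)) * ε) ≤ (N : ℝ) ^ r * (C0 * 12) := by
      linarith
    exact le_of_mul_le_mul_left h2 hNr
  · intro i hi hib θ hθ u hu
    have hcard : (((rb r N).filter (fun z => i ∈ Bz z)).card : ℝ) ≤ ε / 12 * (N : ℝ) ^ r := by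
      by_contra hcon
      push Not at hcon
      exact hib (mem_filter.2 ⟨hi, hcon⟩)
    set G : (Fin r → ℕ) → ℝ := fun z => |∑ p ∈ QD i (i + 1), Real.log p / 2 ^ i *
        (θ p * (Av g.val p i (Phi v c X N (u p)) z - Av (g.val + 1) p i (Phi v c X N (u p)) z))| with hG
    have h2i : (0 : ℝ) < 2 ^ i := by positivity
    -- trivial bound
    have htriv : ∀ z, G z ≤ 6 := by
      intro z
      simp only [hG]
      refine (abs_sum_le_sum_abs _ _).trans ?_
      have h1 : ∀ p ∈ QD i (i + 1), |Real.log p / 2 ^ i *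
          (θ p * (Av g.val p i (Phi v c X N (u p)) z - Av (g.val + 1) p i (Phi v c X N (u p)) z))| ≤
          Real.log p * (2 / 2 ^ i) := by
        intro p hp
        have hp1 : 0 ≤ Real.log p := Real.log_nonneg (by exact_mod_cast (QD_prime hp).one_lt.le)
        have hp2 := QD_lt hp
        have e1 : |Av g.val p i (Phi v c X N (u p)) z| ≤ 1 :=
          avg_abs _ _ _ hp2 _ _ (fun a => Phi_abs v hv c X N _ _)
        have e2 : |Av (g.val + 1) p i (Phi v c X N (u p)) z| ≤ 1 :=
          avg_abs _ _ _ hp2 _ _ (fun a => Phi_abs v hv c X N _ _)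
        have e3 : |θ p * (Av g.val p i (Phi v c X N (u p)) z -
            Av (g.val + 1) p i (Phi v c X N (u p)) z)| ≤ 2 := by
          rw [abs_mul]
          have e4 : |Av g.val p i (Phi v c X N (u p)) z -
            Av (g.val + 1) p i (Phi v c X N (u p)) z| ≤ 2 := by
            refine (abs_sub _ _).trans ?_
            linarith
          calc |θ p| * |Av g.val p i (Phi v c X N (u p)) z -
                Av (g.val + 1) p i (Phi v c X N (u p)) z| ≤ 1 * 2 :=
                mul_le_mul (hθ p) e4 (abs_nonneg _) zero_le_one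
            _ = 2 := one_mul 2
        rw [abs_mul, abs_of_nonneg (by positivity : 0 ≤ Real.log p / 2 ^ i)]
        calc Real.log p / 2 ^ i * |θ p * (Av g.val p i (Phi v c X N (u p)) z -
            Av (g.val + 1) p i (Phi v c X N (u p)) z)| ≤ Real.log p / 2 ^ i * 2 :=
              mul_le_mul_of_nonneg_left e3 (by positivity)
          _ = Real.log p * (2 / 2 ^ i) := by ring
      refine (sum_le_sum h1).trans ?_
      rw [← sum_mul]
      have h2 := theta_QD i
      calc (∑ p ∈ QD i (i + 1), Real.log p) * (2 / 2 ^ i) ≤ (3 * 2 ^ i) * (2 / 2 ^ i) :=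
            mul_le_mul_of_nonneg_right h2 (by positivity)
        _ = 6 := by
            field_simp
            norm_num
    -- good base points
    have hWb : ∀ p ∈ QD i (i + 1), ∀ j, ∀ a ∈ rb r (2 ^ i), lin (c j) a + u p j < W * 2 ^ i := by
      intro p hp j a ha
      unfold rb at ha
      rw [Fintype.mem_piFinset] at ha
      have h1 : lin (c j) a ≤ S * 2 ^ i := by
        unfold lin
        calc ∑ l, c j l * a l ≤ ∑ l, c j l * 2 ^ i :=
              sum_le_sum fun l _ => Nat.mul_le_mul_left _ (mem_range.1 (ha l)).le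
          _ = (∑ l, c j l) * 2 ^ i := by rw [sum_mul]
          _ ≤ S * 2 ^ i := Nat.mul_le_mul_right _ (by
              rw [hS]
              exact single_le_sum (f := fun j => ∑ l, c j l) (fun _ _ => Nat.zero_le _) (mem_univ j))
      have h2 := hu p hp j
      have h3 : 0 < 2 ^ i := by positivity
      rw [pow_succ] at h2
      rw [hW]
      calc lin (c j) a + u p j ≤ S * 2 ^ i + B * (2 ^ i * 2) := add_le_add h1 h2
        _ < (2 * B + S + 1) * 2 ^ i := by nlinarith
    have hgood : ∀ z, i ∉ Bz z → ∑ n ∈ range N, G (Function.update z g n) ≤ ε / 2 * N := by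
      intro z hz
      have h1 := hB3 z i hi hz (ze v c g X N i θ u z (W * 2 ^ i))
        (fun p d s => ze_abs v hv c g X N i θ hθ u z _ p d s)
      refine le_trans (le_of_eq ?_) h1
      refine sum_congr rfl fun n _ => ?_
      simp only [hG]
      congr 1
      refine sum_congr rfl fun p hp => ?_
      rw [ze_win v c g X N i θ u z (W * 2 ^ i) p hp (hWb p hp) n (n % p), EE_mod]
      have h2 : ∑ s ∈ range p, ze v c g X N i θ u z (W * 2 ^ i) p
          (win (W * 2 ^ i) (let_ c g X N z) n) s = ∑ s ∈ range p, EE v c g X N i θ u z p n s :=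
        sum_congr rfl fun s _ => ze_win v c g X N i θ u z (W * 2 ^ i) p hp (hWb p hp) n s
      rw [h2, EE_sum v c g X N i θ u z p n (QD_prime hp).pos]
      ring
    have hbase : ∀ z ∈ rb r N, ∑ n ∈ range N, G (Function.update z g n) ≤
        ε / 2 * N + (if i ∈ Bz z then 6 * (N : ℝ) else 0) := by
      intro z _
      by_cases hz : i ∈ Bz z
      · rw [if_pos hz]
        have : ∑ n ∈ range N, G (Function.update z g n) ≤ ∑ n ∈ range N, (6 : ℝ) :=
          sum_le_sum fun n _ => htriv _
        rw [sum_const, card_range, nsmul_eq_mul] at this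
        have h0 : 0 ≤ ε / 2 * N := by positivity
        linarith
      · rw [if_neg hz, add_zero]
        exact hgood z hz
    have htot : (N : ℝ) * ∑ z ∈ rb r N, G z ≤ N * (ε * (N : ℝ) ^ r) := by
      rw [← swap N g G]
      refine (sum_le_sum hbase).trans ?_
      rw [sum_add_distrib, sum_const, nsmul_eq_mul, card_rb, ← sum_filter, sum_const, nsmul_eq_mul]
      have h1 : (((rb r N).filter (fun z => i ∈ Bz z)).card : ℝ) * (6 * N) ≤
          (ε / 12 * (N : ℝ) ^ r) * (6 * N) := mul_le_mul_of_nonneg_right hcard (by positivity)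
      linarith
    exact le_of_mul_le_mul_left htot hN0

end Pool.Agent.N781.G.DEC
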