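import Mathlib
import Pool.Agent.N781.G.Stm

/-! Project G: multidimensional decoupling, assembly. -/

set_option autoImplicit false

namespace Pool.Agent.N781.G

open Finset Pool.Agent.TH575.CW

lemma tele {r : ℕ} (p i : ℕ) (f : (Fin r → ℕ) → ℝ) (z : Fin r → ℕ) :
    Av 0 p i f z - Av r p i f z = ∑ g : Fin r, (Av g.val p i f z - Av (g.val + 1) p i f z) := by
  rw [Fin.sum_univ_eq_sum_range (fun g => Av g p i f z - Av (g + 1) p i f z) r,
    Finset.sum_range_sub']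

theorem tel (hDEC : S_DEC) (r : ℕ) (ι T : Type) [Fintype ι] [Fintype T] [Nonempty T] (v : T → ℝ)
    (hv : ∀ t, |v t| ≤ 1) (c : ι → Fin r → ℕ) (B : ℕ) (ε : ℝ) (hε : 0 < ε) :
    ∃ (C : ℝ) (i0 : ℕ), 0 < C ∧ 1 ≤ i0 ∧ ∀ J N : ℕ, 1 ≤ N →
    (∀ p : ℕ, p.Prime → p ≤ 2 ^ (J + 1) → p ∣ N) → ∀ X : ι → ℕ → T,
    ∃ Bad : Finset ℕ, Bad ⊆ Icc i0 J ∧ ∑ i ∈ Bad, 1 / (i : ℝ) ≤ C ∧ ∀ i ∈ Icc i0 J, i ∉ Bad →
      ∀ θ : ℕ → ℝ, (∀ p, |θ p| ≤ 1) → ∀ u : ℕ → ι → ℕ,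
      (∀ p ∈ QD i (i + 1), ∀ j, u p j ≤ B * 2 ^ (i + 1)) →
      ∑ z ∈ rb r N, |∑ p ∈ QD i (i + 1), Real.log p / 2 ^ i *
        (θ p * (Av 0 p i (Phi v c X N (u p)) z - Av r p i (Phi v c X N (u p)) z))| ≤
      ε * (N : ℝ) ^ r := by
  classical
  have hr : (0 : ℝ) < r + 1 := by positivity
  choose C i0 hC hi0 h using fun g : Fin r => hDEC r ι T v hv c B g (ε / (r + 1)) (by positivity)
  refine ⟨1 + ∑ g, C g, 1 + ∑ g, i0 g, ?_, by omega, fun J N hN hd X => ?_⟩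
  · have : 0 ≤ ∑ g, C g := sum_nonneg fun g _ => (hC g).le
    linarith
  choose Bad hB1 hB2 hB3 using fun g : Fin r => h g J N hN hd X
  refine ⟨(univ.biUnion Bad) ∩ Icc (1 + ∑ g, i0 g) J, inter_subset_right, ?_, ?_⟩
  · have hnn : ∀ i : ℕ, (0 : ℝ) ≤ 1 / (i : ℝ) := fun i => by positivity
    have h1 : ∑ i ∈ (univ.biUnion Bad) ∩ Icc (1 + ∑ g, i0 g) J, 1 / (i : ℝ) ≤
        ∑ i ∈ univ.biUnion Bad, 1 / (i : ℝ) :=
      sum_le_sum_of_subset_of_nonneg inter_subset_left fun i _ _ => hnn i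
    have h2 : ∀ S : Finset (Fin r), ∑ i ∈ S.biUnion Bad, 1 / (i : ℝ) ≤ ∑ g ∈ S, ∑ i ∈ Bad g, 1 / (i : ℝ) := by
      intro S
      induction S using Finset.induction_on with
      | empty => simp
      | insert a S ha ih =>
        rw [biUnion_insert, sum_insert ha]
        have h1 := sum_union_inter (s₁ := Bad a) (s₂ := S.biUnion Bad) (f := fun i : ℕ => 1 / (i : ℝ))
        have h2 : 0 ≤ ∑ i ∈ Bad a ∩ S.biUnion Bad, 1 / (i : ℝ) := sum_nonneg fun i _ => hnn i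
        linarith
    have h3 := h2 univ
    have h4 : ∑ g, ∑ i ∈ Bad g, 1 / (i : ℝ) ≤ ∑ g, C g := sum_le_sum fun g _ => hB2 g
    linarith
  · intro i hi hib θ hθ u hu
    rw [mem_Icc] at hi
    have hg : ∀ g : Fin r, ∑ z ∈ rb r N, |∑ p ∈ QD i (i + 1), Real.log p / 2 ^ i *
        (θ p * (Av g.val p i (Phi v c X N (u p)) z - Av (g.val + 1) p i (Phi v c X N (u p)) z))| ≤
        ε / (r + 1) * (N : ℝ) ^ r := by
      intro g
      have h1 : i0 g ≤ ∑ g, i0 g := single_le_sum (f := i0) (fun _ _ => Nat.zero_le _) (mem_univ g)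
      refine hB3 g i (by rw [mem_Icc]; omega) ?_ θ hθ u hu
      intro h2
      apply hib
      rw [mem_inter, mem_biUnion, mem_Icc]
      exact ⟨⟨g, mem_univ g, h2⟩, hi⟩
    have h1 : ∀ z ∈ rb r N, |∑ p ∈ QD i (i + 1), Real.log p / 2 ^ i *
        (θ p * (Av 0 p i (Phi v c X N (u p)) z - Av r p i (Phi v c X N (u p)) z))| ≤
        ∑ g : Fin r, |∑ p ∈ QD i (i + 1), Real.log p / 2 ^ i *
        (θ p * (Av g.val p i (Phi v c X N (u p)) z - Av (g.val + 1) p i (Phi v c X N (u p)) z))| := by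
      intro z _
      have e : ∑ p ∈ QD i (i + 1), Real.log p / 2 ^ i *
        (θ p * (Av 0 p i (Phi v c X N (u p)) z - Av r p i (Phi v c X N (u p)) z)) =
        ∑ g : Fin r, ∑ p ∈ QD i (i + 1), Real.log p / 2 ^ i *
        (θ p * (Av g.val p i (Phi v c X N (u p)) z - Av (g.val + 1) p i (Phi v c X N (u p)) z)) := by
        rw [sum_comm]
        apply sum_congr rfl
        intro p _
        rw [tele, mul_sum, mul_sum]
      rw [e]
      exact abs_sum_le_sum_abs _ _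
    refine (sum_le_sum h1).trans ?_
    rw [sum_comm]
    refine (sum_le_sum fun g _ => hg g).trans ?_
    rw [sum_const, card_univ, Fintype.card_fin, nsmul_eq_mul]
    have h5 : (r : ℝ) * (ε / (r + 1) * (N : ℝ) ^ r) = (r / (r + 1)) * (ε * (N : ℝ) ^ r) := by
      field_simp
    rw [h5]
    have h6 : (r : ℝ) / (r + 1) ≤ 1 := by
      rw [div_le_one hr]
      linarith
    have h7 : 0 ≤ ε * (N : ℝ) ^ r := by positivity
    nlinarith

lemma lin_le {r : ℕ} (c z : Fin r → ℕ) (y : ℕ) (hz : z ∈ ib r y) : lin c z ≤ (∑ l, c l) * y := by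
  unfold lin
  rw [sum_mul]
  apply sum_le_sum
  intro l _
  unfold ib at hz
  rw [Fintype.mem_piFinset] at hz
  have := hz l
  rw [mem_Icc] at this
  exact Nat.mul_le_mul_left _ this.2

/-- the sum over the multiples -/
noncomputable def PP {ι : Type} [Fintype ι] {r : ℕ} (c : ι → Fin r → ℕ) (b : ι → ℕ)
    (F : ι → ℕ → SignType) (y p : ℕ) : ℝ :=
  ∑ z ∈ ib r (y / p), ∏ j, ((F j (p * (lin (c j) z + b j)) : SignType) : ℝ)

/-- the sum at the dilate -/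
noncomputable def DD {ι : Type} [Fintype ι] {r : ℕ} (c : ι → Fin r → ℕ) (b : ι → ℕ)
    (F : ι → ℕ → SignType) (y p : ℕ) : ℝ :=
  ∑ z ∈ ib r y, ∏ j, ((F j (lin (c j) z + b j * p) : SignType) : ℝ)

lemma sgn_abs (s : SignType) : |(s : ℝ)| ≤ 1 := by
  cases s <;> simp

theorem md (hDEC : S_DEC) (hSHI : S_SHI) (hUNF : S_UNF) (r : ℕ) (ι : Type) [Fintype ι]
    (c : ι → Fin r → ℕ) (b : ι → ℕ) (ε : ℝ) (hε : 0 < ε) :
    ∃ (C : ℝ) (i0 : ℕ), 0 < C ∧ 1 ≤ i0 ∧ ∀ J : ℕ, ∃ y0 : ℕ, ∀ y : ℕ, y0 ≤ y →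
      ∀ F : ι → ℕ → SignType, ∃ Bad : Finset ℕ, Bad ⊆ Icc i0 J ∧ ∑ i ∈ Bad, 1 / (i : ℝ) ≤ C ∧
        ∀ i ∈ Icc i0 J, i ∉ Bad →
        ∑ p ∈ QD i (i + 1), Real.log p / 2 ^ i *
          ((2 ^ i) ^ r * |PP c b F y p - DD c b F y p / (p : ℝ) ^ r|) ≤ ε * (y : ℝ) ^ r := by
  classical
  set B : ℕ := ∑ j, b j with hB
  set Kc : ℕ := (∑ j, ∑ l, c j l) + 1 with hKc
  obtain ⟨C, i0, hC, hi0, hdec⟩ := tel hDEC r (ι ⊕ Fin r) SignType (fun s : SignType => (s : ℝ)) sgn_abs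
    (cX c) B (ε / (Kc + 1) ^ r) (by positivity)
  refine ⟨C, i0, hC, hi0, fun J => ?_⟩
  set M : ℕ := ∏ p ∈ (Icc 1 (2 ^ (J + 1))).filter Nat.Prime, p with hM
  have hM0 : 0 < M := prod_pos fun p hp => (mem_filter.1 hp).2.pos
  refine ⟨B * 2 ^ (J + 1) + M + 1, fun y hy F => ?_⟩
  set N : ℕ := M * ((Kc * y + B * 2 ^ (J + 1)) / M + 1) with hN
  have hN1 : 1 ≤ N := by
    rw [hN]
    exact Nat.mul_pos hM0 (Nat.succ_pos _)
  have hN2 : Kc * y + B * 2 ^ (J + 1) < N := by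
    rw [hN]
    exact Nat.lt_mul_div_succ _ hM0
  have hN3 : N ≤ (Kc + 1) * y := by
    have h1 : M * ((Kc * y + B * 2 ^ (J + 1)) / M) ≤ Kc * y + B * 2 ^ (J + 1) := Nat.mul_div_le _ _
    have h2 : N = M * ((Kc * y + B * 2 ^ (J + 1)) / M) + M := by rw [hN]; ring
    have h3 : (Kc + 1) * y = Kc * y + y := by ring
    omega
  have hd : ∀ p : ℕ, p.Prime → p ≤ 2 ^ (J + 1) → p ∣ N := by
    intro p hp hpJ
    refine dvd_trans ?_ (dvd_mul_right M _)
    rw [hM]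
    apply dvd_prod_of_mem (fun p => p)
    rw [mem_filter, mem_Icc]
    exact ⟨⟨hp.one_lt.le, hpJ⟩, hp⟩
  obtain ⟨Bad, hB1, hB2, hB3⟩ := hdec J N hN1 hd (XX r F y)
  refine ⟨Bad, hB1, hB2, fun i hi hib => ?_⟩
  have hiJ : i ≤ J := (mem_Icc.1 hi).2
  set W : ℕ → ℝ := fun p => PP c b F y p - DD c b F y p / (p : ℝ) ^ r with hW
  set θ : ℕ → ℝ := fun p => if 0 ≤ W p then 1 else -1 with hθ
  have hθ1 : ∀ p, |θ p| ≤ 1 := by
    intro p
    simp only [hθ]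
    split_ifs <;> simp
  have hθ2 : ∀ p, θ p * W p = |W p| := by
    intro p
    simp only [hθ]
    split_ifs with h
    · rw [one_mul, abs_of_nonneg h]
    · rw [abs_of_neg (not_le.1 h)]; ring
  have hp2 : ∀ p ∈ QD i (i + 1), p.Prime ∧ p ≤ 2 ^ (i + 1) := by
    intro p hp
    unfold QD at hp
    rw [mem_filter, mem_Ioc] at hp
    exact ⟨hp.2, hp.1.2⟩
  have hpow : 2 ^ (i + 1) ≤ 2 ^ (J + 1) := Nat.pow_le_pow_right (by norm_num) (by omega)
  have h1 := hB3 i hi hib θ hθ1 (uX r b) (by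
    intro p hp j
    rcases j with j | l
    · have h2 : b j ≤ B := single_le_sum (f := b) (fun _ _ => Nat.zero_le _) (mem_univ j)
      exact Nat.mul_le_mul h2 (hp2 p hp).2
    · exact Nat.zero_le _)
  have hsum : ∀ p ∈ QD i (i + 1), ∑ z ∈ rb r N,
      (Av 0 p i (Phi (fun s : SignType => (s : ℝ)) (cX c) (XX r F y) N (uX r b p)) z -
        Av r p i (Phi (fun s : SignType => (s : ℝ)) (cX c) (XX r F y) N (uX r b p)) z) =
      (2 ^ i) ^ r * W p := by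
    intro p hp
    obtain ⟨hpp, hple⟩ := hp2 p hp
    have hpN := hd p hpp (hple.trans hpow)
    obtain ⟨s1, s2⟩ := hSHI r (ι ⊕ Fin r) SignType (fun s : SignType => (s : ℝ)) (cX c) (XX r F y) N p i
      (uX r b p) hN1 hpp.one_lt.le hpN
    have hyN : y < N := by
      have : y ≤ Kc * y := Nat.le_mul_of_pos_left _ (by omega)
      omega
    obtain ⟨t1, t2⟩ := hUNF r ι c b F N y p hpp.one_lt.le hyN (by
      intro z hz j
      have e1 := lin_le (c j) z y hz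
      have e2 : ∑ l, c j l ≤ ∑ j, ∑ l, c j l :=
        single_le_sum (f := fun j => ∑ l, c j l) (fun _ _ => Nat.zero_le _) (mem_univ j)
      have e3 : b j ≤ B := single_le_sum (f := b) (fun _ _ => Nat.zero_le _) (mem_univ j)
      have e4 : b j * p ≤ B * 2 ^ (J + 1) := Nat.mul_le_mul e3 (hple.trans hpow)
      have e5 : (∑ l, c j l) * y ≤ Kc * y := Nat.mul_le_mul_right _ (by omega)
      omega)
    rw [sum_sub_distrib, s1, s2, t1, t2]
    simp only [hW, PP, DD]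
    ring
  have hlog : ∀ p ∈ QD i (i + 1), 0 ≤ Real.log p / 2 ^ i := fun p hp =>
    div_nonneg (Real.log_nonneg (by exact_mod_cast (hp2 p hp).1.one_lt.le)) (by positivity)
  calc ∑ p ∈ QD i (i + 1), Real.log p / 2 ^ i * ((2 ^ i) ^ r * |W p|)
      = ∑ p ∈ QD i (i + 1), Real.log p / 2 ^ i * (θ p * ∑ z ∈ rb r N,
      (Av 0 p i (Phi (fun s : SignType => (s : ℝ)) (cX c) (XX r F y) N (uX r b p)) z -
        Av r p i (Phi (fun s : SignType => (s : ℝ)) (cX c) (XX r F y) N (uX r b p)) z)) := by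
        apply sum_congr rfl
        intro p hp
        rw [hsum p hp, ← hθ2 p]
        ring
    _ = ∑ z ∈ rb r N, ∑ p ∈ QD i (i + 1), Real.log p / 2 ^ i * (θ p *
      (Av 0 p i (Phi (fun s : SignType => (s : ℝ)) (cX c) (XX r F y) N (uX r b p)) z -
        Av r p i (Phi (fun s : SignType => (s : ℝ)) (cX c) (XX r F y) N (uX r b p)) z)) := by
        rw [sum_comm]
        apply sum_congr rfl
        intro p _
        rw [mul_sum, mul_sum]
    _ ≤ _ := (sum_le_sum fun z _ => le_abs_self _).trans h1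
    _ ≤ ε / (Kc + 1) ^ r * ((Kc + 1) * y) ^ r := by
        apply mul_le_mul_of_nonneg_left _ (by positivity)
        apply pow_le_pow_left₀ (Nat.cast_nonneg N)
        exact_mod_cast hN3
    _ = ε * (y : ℝ) ^ r := by
        rw [mul_pow]
        field_simp

end Pool.Agent.N781.G
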