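import Mathlib
import Pool.Agent.N781.G.MD
import Pool.Agent.TH575.CW.Cyc
import Pool.Agent.N781.E.Sup

/-! Project G: the main theorem from the multidimensional decoupling and the prime dilates. -/

set_option autoImplicit false

namespace Pool.Agent.N781.G

open Finset Pool.Agent.TH575.CW

/-- the Liouville function as a sign -/
noncomputable def lamS (m : ℕ) : SignType := if Even (ArithmeticFunction.cardFactors m) then 1 else -1

lemma lamS_eq (m : ℕ) : ((lamS m : SignType) : ℝ) = lam m := by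
  unfold lamS lam
  split_ifs with h
  · rw [h.neg_one_pow]; simp
  · rw [(Nat.not_even_iff_odd.1 h).neg_one_pow]; simp

lemma lam_abs (m : ℕ) : |lam m| = 1 := by
  unfold lam
  rw [abs_pow, abs_neg, abs_one, one_pow]

lemma lam_mul_prime (p m : ℕ) (hp : p.Prime) (hm : m ≠ 0) : lam (p * m) = - lam m := by
  unfold lam
  rw [ArithmeticFunction.cardFactors_mul hp.ne_zero hm, pow_add,
    ArithmeticFunction.cardFactors_apply_prime hp, pow_one]
  ring

lemma mem_ib {r y : ℕ} {z : Fin r → ℕ} : z ∈ ib r y ↔ ∀ l, 1 ≤ z l ∧ z l ≤ y := by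
  unfold ib
  rw [Fintype.mem_piFinset]
  simp only [mem_Icc]

lemma card_ib (r y : ℕ) : ((ib r y).card : ℝ) = (y : ℝ) ^ r := by
  unfold ib
  rw [Fintype.card_piFinset]
  simp

lemma lin_pos {r : ℕ} {c z : Fin r → ℕ} {y : ℕ} (hc : c ≠ 0) (hz : z ∈ ib r y) : 1 ≤ lin c z := by
  obtain ⟨l, hl⟩ := Function.ne_iff.1 hc
  unfold lin
  have h1 := single_le_sum (f := fun l => c l * z l) (fun _ _ => Nat.zero_le _) (mem_univ l)
  have h2 : 1 ≤ c l * z l := Nat.mul_pos (Nat.pos_of_ne_zero hl) (mem_ib.1 hz l).1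
  omega

lemma prod_abs {ι : Type} [Fintype ι] (f : ι → ℕ) : |∏ j, lam (f j)| = 1 := by
  rw [Finset.abs_prod]
  exact prod_eq_one fun j _ => lam_abs _

variable {ι : Type} [Fintype ι] {r : ℕ} (c : ι → Fin r → ℕ) (b : ι → ℕ)

lemma PP_lam (hc : ∀ j, c j ≠ 0) (y p : ℕ) (hp : p.Prime) :
    PP c b (fun _ => lamS) y p = (-1) ^ Fintype.card ι * SF c b (y / p) := by
  unfold PP SF
  rw [mul_sum]
  apply sum_congr rfl
  intro z hz
  have h1 : ∀ j, ((lamS (p * (lin (c j) z + b j)) : SignType) : ℝ) = (-1) * lam (lin (c j) z + b j) := by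
    intro j
    rw [lamS_eq, lam_mul_prime p _ hp (by have := lin_pos (hc j) hz; omega)]
    ring
  rw [prod_congr rfl fun j _ => h1 j, prod_mul_distrib, prod_const, card_univ]

lemma SF_abs (y : ℕ) : |SF c b y| ≤ (y : ℝ) ^ r := by
  unfold SF
  refine (abs_sum_le_sum_abs _ _).trans ?_
  rw [sum_congr rfl fun z _ => prod_abs (fun j => lin (c j) z + b j), sum_const, nsmul_eq_mul, mul_one,
    card_ib]

lemma SF_slow (u v : ℕ) (huv : u ≤ v) : |SF c b v - SF c b u| ≤ (v : ℝ) ^ r - (u : ℝ) ^ r := by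
  have hsub : ib r u ⊆ ib r v := by
    intro z hz
    rw [mem_ib] at hz ⊢
    exact fun l => ⟨(hz l).1, (hz l).2.trans huv⟩
  unfold SF
  rw [← sum_sdiff hsub, add_sub_cancel_right]
  refine (abs_sum_le_sum_abs _ _).trans ?_
  rw [sum_congr rfl fun z _ => prod_abs (fun j => lin (c j) z + b j), sum_const, nsmul_eq_mul, mul_one,
    card_sdiff_of_subset hsub, Nat.cast_sub (card_le_card hsub), card_ib, card_ib]

lemma pow_diff (s : ℕ) (u v : ℝ) (hu : 0 ≤ u) (huv : u ≤ v) :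
    v ^ (s + 1) - u ^ (s + 1) ≤ (s + 1) * v ^ s * (v - u) := by
  induction s with
  | zero => simp
  | succ s ih =>
    have e : v ^ (s + 1 + 1) - u ^ (s + 1 + 1) = v * (v ^ (s + 1) - u ^ (s + 1)) + u ^ (s + 1) * (v - u) := by
      ring
    have h1 : v * (v ^ (s + 1) - u ^ (s + 1)) ≤ v * ((s + 1) * v ^ s * (v - u)) :=
      mul_le_mul_of_nonneg_left ih (hu.trans huv)
    have h2 : u ^ (s + 1) * (v - u) ≤ v ^ (s + 1) * (v - u) :=
      mul_le_mul_of_nonneg_right (pow_le_pow_left₀ hu huv _) (by linarith)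
    rw [e]
    push_cast
    calc _ ≤ v * ((s + 1) * v ^ s * (v - u)) + v ^ (s + 1) * (v - u) := add_le_add h1 h2
      _ = _ := by ring

/-- the bound at a good scale -/
lemma good_scale (s : ℕ) (c : ι → Fin (s + 1) → ℕ) (ε1 ε2 δ : ℝ) (hε1 : 0 ≤ ε1) (hε2 : 0 ≤ ε2) (hδ : 0 < δ)
    (hc : ∀ j, c j ≠ 0) (i y : ℕ)
    (h1 : ∑ p ∈ QD i (i + 1), Real.log p / 2 ^ i *
          ((2 ^ i) ^ (s + 1) * |PP c b (fun _ => lamS) y p - DD c b (fun _ => lamS) y p / (p : ℝ) ^ (s + 1)|) ≤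
            ε1 * (y : ℝ) ^ (s + 1))
    (h2 : ∑ p ∈ QD i (i + 1), Real.log p / 2 ^ i *
      |∑ z ∈ ib (s + 1) y, ∏ j, lam (lin (c j) z + b j * p)| ≤ ε2 * (y : ℝ) ^ (s + 1))
    (h3 : δ / 2 * 2 ^ i ≤ ∑ p ∈ PL δ i, Real.log p) :
    |SF c b (y / 2 ^ i)| ≤ 2 / δ * (ε1 + ε2) * ((y : ℝ) / 2 ^ i) ^ (s + 1) +
      (s + 1) * ((y : ℝ) / 2 ^ i) ^ s * (δ * (y / 2 ^ i) + 1) := by
  have h2i : (0 : ℝ) < 2 ^ i := by positivity
  have hy0 : (0 : ℝ) ≤ y := Nat.cast_nonneg y
  set Y : ℝ := (y : ℝ) / 2 ^ i with hY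
  have hY0 : 0 ≤ Y := by positivity
  set X := |SF c b (y / 2 ^ i)| with hX
  set E : ℝ := (s + 1) * Y ^ s * (δ * Y + 1) with hE
  have hE0 : 0 ≤ E := by positivity
  have hlog : ∀ p ∈ QD i (i + 1), 0 ≤ Real.log p := fun p hp =>
    Real.log_nonneg (by exact_mod_cast (QD_prime hp).one_lt.le)
  have key : ∀ p ∈ PL δ i, Real.log p / 2 ^ i * ((2 ^ i) ^ (s + 1) * (X - E)) ≤
      Real.log p / 2 ^ i * ((2 ^ i) ^ (s + 1) * |PP c b (fun _ => lamS) y p -
        DD c b (fun _ => lamS) y p / (p : ℝ) ^ (s + 1)|) +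
      Real.log p / 2 ^ i * |∑ z ∈ ib (s + 1) y, ∏ j, lam (lin (c j) z + b j * p)| := by
    intro p hp
    have hpQ : p ∈ QD i (i + 1) := (mem_filter.1 hp).1
    have hpp := QD_prime hpQ
    have hpδ : (p : ℝ) ≤ (1 + δ) * 2 ^ i := (mem_filter.1 hp).2
    have hp1 : 2 ^ i < p := by
      unfold QD at hpQ
      rw [mem_filter, mem_Ioc] at hpQ
      exact hpQ.1.1
    have hp1' : (2 : ℝ) ^ i < p := by exact_mod_cast hp1
    have hp0 : (0 : ℝ) < p := h2i.trans hp1'
    rw [← mul_add]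
    apply mul_le_mul_of_nonneg_left _ (div_nonneg (hlog p hpQ) h2i.le)
    have hle : y / p ≤ y / 2 ^ i := Nat.div_le_div_left hp1.le (by positivity)
    have g0 := SF_slow c b (y / p) (y / 2 ^ i) hle
    have g1 : ((y / 2 ^ i : ℕ) : ℝ) ≤ Y := by
      calc ((y / 2 ^ i : ℕ) : ℝ) ≤ (y : ℝ) / ((2 ^ i : ℕ) : ℝ) := Nat.cast_div_le
        _ = _ := by rw [hY]; push_cast; rfl
    have g2 : (y : ℝ) / p - 1 ≤ ((y / p : ℕ) : ℝ) := by
      have := Nat.lt_div_mul_add (a := y) hpp.pos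
      have g3 : (y : ℝ) < ((y / p : ℕ) : ℝ) * p + p := by exact_mod_cast this
      have g4 : (y : ℝ) / p < ((y / p : ℕ) : ℝ) + 1 := by
        rw [div_lt_iff₀ hp0]
        linarith
      linarith
    have g3 : (1 - δ) * Y ≤ (y : ℝ) / p := by
      rw [hY]
      refine le_trans ?_ (div_le_div_of_nonneg_left hy0 hp0 hpδ)
      rw [le_div_iff₀ (by positivity)]
      have : (1 - δ) * ((y : ℝ) / 2 ^ i) * ((1 + δ) * 2 ^ i) = (1 - δ ^ 2) * y := by
        field_simp
        ring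
      rw [this]
      have h9 : 0 ≤ δ ^ 2 * y := by positivity
      nlinarith
    have g4 : ((y / 2 ^ i : ℕ) : ℝ) - ((y / p : ℕ) : ℝ) ≤ δ * Y + 1 := by
      have : (1 - δ) * Y = Y - δ * Y := by ring
      linarith
    have g5 := pow_diff s ((y / p : ℕ) : ℝ) ((y / 2 ^ i : ℕ) : ℝ) (Nat.cast_nonneg _) (by exact_mod_cast hle)
    have g6 : (s + 1 : ℝ) * ((y / 2 ^ i : ℕ) : ℝ) ^ s * (((y / 2 ^ i : ℕ) : ℝ) - ((y / p : ℕ) : ℝ)) ≤ E := by
      rw [hE]
      apply mul_le_mul _ g4 _ (by positivity)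
      · apply mul_le_mul_of_nonneg_left _ (by positivity)
        exact pow_le_pow_left₀ (Nat.cast_nonneg _) g1 _
      · have : ((y / p : ℕ) : ℝ) ≤ ((y / 2 ^ i : ℕ) : ℝ) := by exact_mod_cast hle
        linarith
    have g7 : X - E ≤ |SF c b (y / p)| := by
      have := abs_sub_abs_le_abs_sub (SF c b (y / 2 ^ i)) (SF c b (y / p))
      linarith
    have g8 : |SF c b (y / p)| = |PP c b (fun _ => lamS) y p| := by
      rw [PP_lam c b hc y p hpp, abs_mul, abs_pow, abs_neg, abs_one, one_pow, one_mul]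
    set P := PP c b (fun _ => lamS) y p with hP
    set D := DD c b (fun _ => lamS) y p with hD
    have g9 : |P| ≤ |P - D / (p : ℝ) ^ (s + 1)| + |D| / (p : ℝ) ^ (s + 1) := by
      have h := abs_add_le (P - D / (p : ℝ) ^ (s + 1)) (D / (p : ℝ) ^ (s + 1))
      rw [sub_add_cancel, abs_div, abs_of_pos (show (0 : ℝ) < (p : ℝ) ^ (s + 1) by positivity)] at h
      exact h
    have g10 : D = ∑ z ∈ ib (s + 1) y, ∏ j, lam (lin (c j) z + b j * p) := by
      rw [hD]
      unfold DD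
      apply sum_congr rfl
      intro z _
      apply prod_congr rfl
      intro j _
      rw [lamS_eq]
    have g11 : (2 ^ i) ^ (s + 1) * (|D| / (p : ℝ) ^ (s + 1)) ≤ |D| := by
      rw [mul_div_assoc', div_le_iff₀ (by positivity), mul_comm]
      apply mul_le_mul_of_nonneg_left _ (abs_nonneg _)
      exact pow_le_pow_left₀ h2i.le hp1'.le _
    rw [← g10]
    calc (2 ^ i) ^ (s + 1) * (X - E) ≤ (2 ^ i) ^ (s + 1) * (|P - D / (p : ℝ) ^ (s + 1)| + |D| / (p : ℝ) ^ (s + 1)) := by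
          apply mul_le_mul_of_nonneg_left _ (by positivity)
          linarith
      _ = (2 ^ i) ^ (s + 1) * |P - D / (p : ℝ) ^ (s + 1)| + (2 ^ i) ^ (s + 1) * (|D| / (p : ℝ) ^ (s + 1)) := by ring
      _ ≤ _ := by linarith
  by_cases hneg : X - E ≤ 0
  · have : 0 ≤ 2 / δ * (ε1 + ε2) * Y ^ (s + 1) := by positivity
    linarith
  push Not at hneg
  have hS := sum_le_sum key
  rw [sum_add_distrib] at hS
  have hsub : PL δ i ⊆ QD i (i + 1) := filter_subset _ _
  have k1 := (sum_le_sum_of_subset_of_nonneg hsub (f := fun p : ℕ => Real.log p / 2 ^ i *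
      ((2 ^ i) ^ (s + 1) * |PP c b (fun _ => lamS) y p - DD c b (fun _ => lamS) y p / (p : ℝ) ^ (s + 1)|))
      (fun p hp _ => mul_nonneg (div_nonneg (hlog p hp) h2i.le) (by positivity))).trans h1
  have k2 := (sum_le_sum_of_subset_of_nonneg hsub (f := fun p : ℕ => Real.log p / 2 ^ i *
      |∑ z ∈ ib (s + 1) y, ∏ j, lam (lin (c j) z + b j * p)|)
      (fun p hp _ => mul_nonneg (div_nonneg (hlog p hp) h2i.le) (by positivity))).trans h2
  have k3 : ∑ p ∈ PL δ i, Real.log p / 2 ^ i * ((2 ^ i) ^ (s + 1) * (X - E)) =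
      (∑ p ∈ PL δ i, Real.log p) / 2 ^ i * ((2 ^ i) ^ (s + 1) * (X - E)) := by
    rw [← sum_mul, sum_div]
  rw [k3] at hS
  have k4 : δ / 2 ≤ (∑ p ∈ PL δ i, Real.log p) / 2 ^ i := by
    rw [le_div_iff₀ h2i]
    exact h3
  have k5 : δ / 2 * ((2 ^ i) ^ (s + 1) * (X - E)) ≤ (ε1 + ε2) * (y : ℝ) ^ (s + 1) := by
    have h9 : 0 ≤ (2 ^ i : ℝ) ^ (s + 1) * (X - E) := by positivity
    have := mul_le_mul_of_nonneg_right k4 h9
    linarith
  have k6 : X - E ≤ 2 / δ * (ε1 + ε2) * Y ^ (s + 1) := by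
    have e : 2 / δ * (ε1 + ε2) * Y ^ (s + 1) = (ε1 + ε2) * (y : ℝ) ^ (s + 1) / (δ / 2 * (2 ^ i) ^ (s + 1)) := by
      rw [hY, div_pow]
      field_simp
    rw [e, le_div_iff₀ (by positivity)]
    linarith
  linarith

/-- the Lipschitz property of the normalised sum -/
lemma norm_slow (s : ℕ) (c : ι → Fin (s + 1) → ℕ) (u v : ℕ) (huv : u ≤ v) :
    |(|SF c b v| / (v : ℝ) ^ s) - |SF c b u| / (u : ℝ) ^ s| ≤ (2 * s + 1) * ((v : ℝ) - u) := by
  have huv' : (u : ℝ) ≤ v := by exact_mod_cast huv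
  rcases Nat.eq_zero_or_pos u with hu | hu
  · subst hu
    have h0 : |SF c b 0| / ((0 : ℕ) : ℝ) ^ s = 0 := by
      have := SF_abs c b 0
      rw [Nat.cast_zero, zero_pow (by omega)] at this
      have h1 : |SF c b 0| = 0 := le_antisymm this (abs_nonneg _)
      rw [h1, zero_div]
    rw [h0, sub_zero, abs_of_nonneg (by positivity), Nat.cast_zero, sub_zero]
    rcases Nat.eq_zero_or_pos v with hv | hv
    · subst hv
      rw [h0, Nat.cast_zero, mul_zero]
    · have hv' : (0 : ℝ) < v := by exact_mod_cast hv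
      rw [div_le_iff₀ (by positivity)]
      refine (SF_abs c b v).trans ?_
      have : (2 * s + 1 : ℝ) * v * (v : ℝ) ^ s = (2 * s + 1) * (v : ℝ) ^ (s + 1) := by ring
      rw [this]
      have h2 : 0 ≤ (v : ℝ) ^ (s + 1) := by positivity
      have h3 : (0 : ℝ) ≤ s := Nat.cast_nonneg s
      nlinarith
  · have hu' : (0 : ℝ) < u := by exact_mod_cast hu
    have hv' : (0 : ℝ) < v := hu'.trans_le huv'
    have h1 := SF_slow c b u v huv
    have h2 := pow_diff s (u : ℝ) v hu'.le huv'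
    have h3 : |(|SF c b v| - |SF c b u|)| ≤ (s + 1) * (v : ℝ) ^ s * (v - u) :=
      (abs_abs_sub_abs_le_abs_sub _ _).trans (h1.trans h2)
    have h4 := SF_abs c b u
    have e : |SF c b v| / (v : ℝ) ^ s - |SF c b u| / (u : ℝ) ^ s =
        (|SF c b v| - |SF c b u|) / (v : ℝ) ^ s - |SF c b u| * (1 / (u : ℝ) ^ s - 1 / (v : ℝ) ^ s) := by
      field_simp
      ring
    rw [e]
    have h5 : (0 : ℝ) ≤ 1 / (u : ℝ) ^ s - 1 / (v : ℝ) ^ s := by
      rw [sub_nonneg]
      apply one_div_le_one_div_of_le (by positivity)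
      exact pow_le_pow_left₀ hu'.le huv' _
    refine (abs_sub _ _).trans ?_
    rw [abs_div, abs_of_pos (show (0 : ℝ) < (v : ℝ) ^ s by positivity), abs_mul, abs_abs, abs_of_nonneg h5]
    have h6 : |(|SF c b v| - |SF c b u|)| / (v : ℝ) ^ s ≤ (s + 1) * (v - u) := by
      rw [div_le_iff₀ (by positivity)]
      calc _ ≤ _ := h3
        _ = _ := by ring
    have h7 : |SF c b u| * (1 / (u : ℝ) ^ s - 1 / (v : ℝ) ^ s) ≤ s * (v - u) := by
      refine (mul_le_mul_of_nonneg_right h4 h5).trans ?_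
      have e2 : (u : ℝ) ^ (s + 1) * (1 / (u : ℝ) ^ s - 1 / (v : ℝ) ^ s) =
          u * ((v : ℝ) ^ s - u ^ s) / (v : ℝ) ^ s := by
        field_simp
        ring
      rw [e2, div_le_iff₀ (by positivity)]
      rcases s with _ | s
      · simp
      · have h8 := pow_diff s (u : ℝ) v hu'.le huv'
        calc (u : ℝ) * ((v : ℝ) ^ (s + 1) - u ^ (s + 1)) ≤ v * ((s + 1) * v ^ s * (v - u)) := by
              apply mul_le_mul huv' h8 _ hv'.le
              rw [sub_nonneg]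
              exact pow_le_pow_left₀ hu'.le huv' _
          _ = _ := by push_cast; ring
    calc _ ≤ (s + 1) * ((v : ℝ) - u) + s * (v - u) := add_le_add h6 h7
      _ = _ := by ring

/-- **Main theorem.** -/
theorem main_of (hDEC : S_DEC) (hSHI : S_SHI) (hUNF : S_UNF) (hPRD : S_PRD) : S_MAIN := by
  classical
  intro r ι _ c b hc hg ε hε
  rcases r with _ | s
  · obtain ⟨j₀, -⟩ := hg
    exact absurd (Subsingleton.elim _ _) (hc j₀)
  obtain ⟨T, hT⟩ := Pool.Agent.N781.E.sup_few (2 * s + 1) ε (by positivity) hε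
  -- the constants
  set ε0 : ℝ := ε / 8 with hε0
  have hε00 : 0 < ε0 := by positivity
  set δ : ℝ := min (ε0 / (8 * (s + 1))) 1 with hδ
  have hδ0 : 0 < δ := by rw [hδ]; positivity
  have hδ1 : δ ≤ 1 := min_le_right _ _
  have hδε : (s + 1) * δ ≤ ε0 / 8 := by
    have : δ ≤ ε0 / (8 * (s + 1)) := min_le_left _ _
    calc (s + 1) * δ ≤ (s + 1) * (ε0 / (8 * (s + 1))) := mul_le_mul_of_nonneg_left this (by positivity)
      _ = _ := by field_simp
  set ε1 : ℝ := ε0 * δ / 16 with hε1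
  have hε10 : 0 < ε1 := by positivity
  obtain ⟨C, i0, hC, hi0, hmd⟩ := md hDEC hSHI hUNF (s + 1) ι c b ε1 hε10
  obtain ⟨i1, hprd⟩ := hPRD (s + 1) ι c b hc hg ε1 hε10
  obtain ⟨i2, hpnt⟩ := pnt_low δ hδ0 hδ1
  set i' := i0 + i1 + i2 with hi'
  refine ⟨T * (C + i'), fun J => ?_⟩
  obtain ⟨y1, hy1⟩ := hmd J
  obtain ⟨y2, hy2⟩ := hprd J
  set N₀ := y1 + y2 + ⌈2 ^ J * (8 * (s + 1)) / ε0⌉₊ with hN₀
  obtain ⟨N₁, hN₁⟩ := hT J N₀
  refine ⟨N₁, fun N hN => ?_⟩
  have hfew := hN₁ (fun y => |SF c b y| / (y : ℝ) ^ s) (norm_slow b s c) (C + i') (by positivity) (by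
    intro y hy
    obtain ⟨Bad, hB1, hB2, hB3⟩ := hy1 y (by omega) (fun _ => lamS)
    have hyK : 2 ^ J * (8 * (s + 1)) / ε0 ≤ y := (Nat.le_ceil _).trans (by
      exact_mod_cast (by omega : ⌈2 ^ J * (8 * (s + 1)) / ε0⌉₊ ≤ y))
    have hsub : (Icc 1 J).filter (fun i => ε / 8 * ((y : ℝ) / 2 ^ i) <
        |SF c b (y / 2 ^ i)| / ((y / 2 ^ i : ℕ) : ℝ) ^ s) ⊆ Icc 1 i' ∪ Bad := by
      intro i hi
      rw [mem_filter, mem_Icc] at hi
      rw [mem_union]
      by_contra hcon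
      push Not at hcon
      obtain ⟨⟨hi1, hiJ⟩, hbig⟩ := hi
      have hii : i' ≤ i := by
        by_contra h2
        exact hcon.1 (by rw [mem_Icc]; omega)
      have h3 := good_scale b s c ε1 ε1 δ hε10.le hε10.le hδ0 hc i y
        (hB3 i (by rw [mem_Icc]; omega) hcon.2) (hy2 y (by omega) i (by rw [mem_Icc]; omega))
        (hpnt i (by omega))
      have h2i : (0 : ℝ) < 2 ^ i := by positivity
      set Y : ℝ := (y : ℝ) / 2 ^ i with hY
      have hiJ' : (2 : ℝ) ^ i ≤ 2 ^ J := pow_le_pow_right₀ one_le_two hiJ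
      have hY8 : 8 * (s + 1) ≤ ε0 * Y := by
        rw [div_le_iff₀ hε00] at hyK
        rw [hY, mul_div_assoc', le_div_iff₀ h2i]
        have : 8 * (s + 1 : ℝ) * 2 ^ i ≤ 2 ^ J * (8 * (s + 1)) := by
          rw [mul_comm]
          exact mul_le_mul_of_nonneg_right hiJ' (by positivity)
        linarith
      have hε1' : ε0 ≤ 1 ∨ 1 < ε0 := le_or_gt _ _
      -- the case of a large epsilon is trivial
      rcases hε1' with hle | hgt
      swap
      · have h4 : |SF c b (y / 2 ^ i)| / ((y / 2 ^ i : ℕ) : ℝ) ^ s ≤ ((y / 2 ^ i : ℕ) : ℝ) := by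
          rcases Nat.eq_zero_or_pos (y / 2 ^ i) with h0 | h0
          · rw [h0]
            have := SF_abs c b 0
            rw [Nat.cast_zero, zero_pow (by omega)] at this
            have h1 : |SF c b 0| = 0 := le_antisymm this (abs_nonneg _)
            rw [h1, zero_div]
            simp
          · have h0' : (0 : ℝ) < ((y / 2 ^ i : ℕ) : ℝ) := by exact_mod_cast h0
            rw [div_le_iff₀ (by positivity)]
            refine (SF_abs c b _).trans (le_of_eq ?_)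
            ring
        have h5 : ((y / 2 ^ i : ℕ) : ℝ) ≤ Y := by
          calc ((y / 2 ^ i : ℕ) : ℝ) ≤ (y : ℝ) / ((2 ^ i : ℕ) : ℝ) := Nat.cast_div_le
            _ = _ := by rw [hY]; push_cast; rfl
        have h6 : 0 ≤ Y := by positivity
        nlinarith
      have hYs : 8 ≤ Y := by
        have h6 : 0 ≤ Y := by positivity
        have h7 : (0 : ℝ) ≤ s := Nat.cast_nonneg s
        nlinarith
      have hfl : Y - 1 ≤ ((y / 2 ^ i : ℕ) : ℝ) := by
        have := Nat.lt_div_mul_add (a := y) (b := 2 ^ i) (by positivity)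
        have g3 : (y : ℝ) < ((y / 2 ^ i : ℕ) : ℝ) * 2 ^ i + 2 ^ i := by exact_mod_cast this
        have g4 : Y < ((y / 2 ^ i : ℕ) : ℝ) + 1 := by
          rw [hY, div_lt_iff₀ h2i]
          linarith
        linarith
      have hflpos : (0 : ℝ) < ((y / 2 ^ i : ℕ) : ℝ) := by linarith
      rw [lt_div_iff₀ (by positivity)] at hbig
      have hY0 : 0 < Y := by linarith
      have hs0 : (0 : ℝ) ≤ s := Nat.cast_nonneg s
      have hYs2 : 8 * (s + 1) ≤ Y := by nlinarith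
      have hpw : Y ^ s / 2 ≤ ((y / 2 ^ i : ℕ) : ℝ) ^ s := by
        have q1 : (1 : ℝ) + s * (-(1 / Y)) ≤ (1 + -(1 / Y)) ^ s := by
          apply one_add_mul_le_pow
          have : 1 / Y ≤ 1 := by
            rw [div_le_one hY0]
            linarith
          linarith
        have q2 : (1 : ℝ) / 2 ≤ 1 + s * (-(1 / Y)) := by
          have : s * (1 / Y) ≤ 1 / 2 := by
            rw [mul_one_div, div_le_iff₀ hY0]
            linarith
          linarith
        have q3 : Y ^ s * (1 + -(1 / Y)) ^ s = (Y - 1) ^ s := by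
          rw [← mul_pow]
          congr 1
          field_simp
          ring
        calc Y ^ s / 2 = Y ^ s * (1 / 2) := by ring
          _ ≤ Y ^ s * (1 + -(1 / Y)) ^ s := mul_le_mul_of_nonneg_left (q2.trans q1) (by positivity)
          _ = (Y - 1) ^ s := q3
          _ ≤ _ := pow_le_pow_left₀ (by linarith) hfl _
      have t1 : 2 / δ * (ε1 + ε1) * Y ^ (s + 1) = ε0 / 4 * Y ^ (s + 1) := by
        rw [hε1]
        field_simp
        ring
      have t2 : (s + 1) * Y ^ s * (δ * Y + 1) = ((s + 1) * δ) * Y ^ (s + 1) + (s + 1) * Y ^ s := by ring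
      have t3 : ((s + 1) * δ) * Y ^ (s + 1) ≤ ε0 / 8 * Y ^ (s + 1) :=
        mul_le_mul_of_nonneg_right hδε (by positivity)
      have t4 : (s + 1 : ℝ) * Y ^ s ≤ ε0 / 8 * Y ^ (s + 1) := by
        have : (s + 1 : ℝ) ≤ ε0 / 8 * Y := by linarith
        calc (s + 1 : ℝ) * Y ^ s ≤ (ε0 / 8 * Y) * Y ^ s := mul_le_mul_of_nonneg_right this (by positivity)
          _ = _ := by ring
      have t5 : ε0 * Y * (Y ^ s / 2) ≤ ε / 8 * Y * ((y / 2 ^ i : ℕ) : ℝ) ^ s := by
        rw [hε0]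
        exact mul_le_mul_of_nonneg_left hpw (by positivity)
      have t6 : ε0 * Y * (Y ^ s / 2) = ε0 / 2 * Y ^ (s + 1) := by ring
      rw [t1, t2] at h3
      linarith
    have hnn : ∀ i : ℕ, (0 : ℝ) ≤ 1 / (i : ℝ) := fun i => by positivity
    have h5 := sum_le_sum_of_subset_of_nonneg hsub (f := fun i : ℕ => 1 / (i : ℝ)) fun i _ _ => hnn i
    have h6 : ∑ i ∈ Icc 1 i' ∪ Bad, 1 / (i : ℝ) ≤ ∑ i ∈ Icc 1 i', 1 / (i : ℝ) + ∑ i ∈ Bad, 1 / (i : ℝ) := by
      have := sum_union_inter (s₁ := Icc 1 i') (s₂ := Bad) (f := fun i : ℕ => 1 / (i : ℝ))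
      have h2 : 0 ≤ ∑ i ∈ Icc 1 i' ∩ Bad, 1 / (i : ℝ) := sum_nonneg fun i _ => hnn i
      linarith
    have h8 : ∑ i ∈ Icc 1 i', 1 / (i : ℝ) ≤ i' := by
      calc ∑ i ∈ Icc 1 i', 1 / (i : ℝ) ≤ ∑ i ∈ Icc 1 i', (1 : ℝ) := by
            apply sum_le_sum
            intro i hi
            rw [mem_Icc] at hi
            rw [div_le_one (by exact_mod_cast hi.1)]
            exact_mod_cast hi.1
        _ = i' := by simp
    linarith) N hN
  refine le_trans (sum_le_sum_of_subset_of_nonneg ?_ fun i _ _ => by positivity) hfew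
  intro i hi
  unfold ex at hi
  unfold Pool.Agent.N781.E.exc
  rw [mem_filter] at hi ⊢
  obtain ⟨hi1, y, hy1, hy2, hy3⟩ := hi
  refine ⟨hi1, y, hy1, hy2, ?_⟩
  beta_reduce at hy3 ⊢
  rcases Nat.eq_zero_or_pos y with h0 | h0
  · exfalso
    rw [h0, Nat.cast_zero, zero_pow (by omega), div_zero] at hy3
    linarith
  · have h0' : (0 : ℝ) < y := by exact_mod_cast h0
    rw [lt_div_iff₀ (by positivity)] at hy3 ⊢
    calc ε * y * (y : ℝ) ^ s = ε * (y : ℝ) ^ (s + 1) := by ring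
      _ < _ := hy3

end Pool.Agent.N781.G
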