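import Pool.Agent.N781.G.Stm2
import Pool.Agent.N781.G.CUB

/-!
# PG/PAT: sign patterns from the main theorem (helper736)
-/

set_option autoImplicit false

namespace Pool.Agent.N781.G.PAT

open Pool.Agent.N781.G Finset Pool.Agent.TH575.CW
open Pool.Agent.N781.G.CUB (ib_cons card_ib)

/-- the coefficients: `n` or `n'` plus `0` or `h l` -/
def cc (m k : ℕ) (E : Finset (Option (Fin m) × Fin k)) (j : {x // x ∈ E} × Bool) :
    Fin (m + 2) → ℕ :=
  Fin.cons (α := fun _ => ℕ) (if j.2 = true then 0 else 1)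
    (Fin.cons (α := fun _ => ℕ) (if j.2 = true then 1 else 0)
      (fun l : Fin m => if j.1.1.1 = some l then 1 else 0))

/-- the constants -/
def bb (m : ℕ) {k : ℕ} (b : Fin k → ℕ) (E : Finset (Option (Fin m) × Fin k))
    (j : {x // x ∈ E} × Bool) : ℕ := b j.1.1.2

section
variable {m k : ℕ} (E : Finset (Option (Fin m) × Fin k))

lemma cc_zero (j : {x // x ∈ E} × Bool) :
    cc m k E j 0 = if j.2 = true then 0 else 1 := rfl

lemma cc_one (j : {x // x ∈ E} × Bool) :
    cc m k E j (Fin.succ 0) = if j.2 = true then 1 else 0 := rfl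

lemma cc_succ (j : {x // x ∈ E} × Bool) (l : Fin m) :
    cc m k E j l.succ.succ = if j.1.1.1 = some l then 1 else 0 := rfl

lemma cc_ne (j : {x // x ∈ E} × Bool) : cc m k E j ≠ 0 := by
  intro h
  have h0 := congrFun h 0
  have h1 := congrFun h (Fin.succ 0)
  rw [cc_zero] at h0
  rw [cc_one] at h1
  simp only [Pi.zero_apply] at h0 h1
  by_cases hj : j.2 = true
  · rw [if_pos hj] at h1
    exact one_ne_zero h1
  · rw [if_neg hj] at h0
    exact one_ne_zero h0

lemma lin_cc (j : {x // x ∈ E} × Bool) (n n' : ℕ) (h : Fin m → ℕ) :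
    lin (cc m k E j) (Fin.cons (α := fun _ => ℕ) n (Fin.cons (α := fun _ => ℕ) n' h)) =
      (if j.2 = true then n' else n) + hh h j.1.1.1 := by
  unfold lin
  rw [Fin.sum_univ_succ, Fin.sum_univ_succ]
  simp only [cc_zero, cc_one, cc_succ, Fin.cons_zero, Fin.cons_succ]
  have h1 : ∑ l : Fin m, (if j.1.1.1 = some l then 1 else 0) * h l = hh h j.1.1.1 := by
    generalize j.1.1.1 = o
    cases o with
    | none => simp [hh]
    | some i => simp [hh]
  rw [h1]
  by_cases hj : j.2 = true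
  · simp only [if_pos hj]
    ring
  · simp only [if_neg hj]
    ring

end

/-- the product over a set of points -/
noncomputable def PE {m k : ℕ} (b : Fin k → ℕ) (E : Finset (Option (Fin m) × Fin k))
    (h : Fin m → ℕ) (n : ℕ) : ℝ := ∏ x ∈ E, lam (n + hh h x.1 + b x.2)

/-- the sum over `n` for fixed `h` -/
noncomputable def Sh {m k : ℕ} (b : Fin k → ℕ) (E : Finset (Option (Fin m) × Fin k)) (y : ℕ)
    (h : Fin m → ℕ) : ℝ := ∑ n ∈ Icc 1 y, PE b E h n

lemma SF_eq {m k : ℕ} (b : Fin k → ℕ) (E : Finset (Option (Fin m) × Fin k)) (y : ℕ) :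
    SF (cc m k E) (bb m b E) y = ∑ h ∈ ib m y, Sh b E y h ^ 2 := by
  unfold SF
  rw [ib_cons]
  simp only [ib_cons]
  have h1 : ∀ (n n' : ℕ) (h : Fin m → ℕ),
      (∏ j, lam (lin (cc m k E j) (Fin.cons (α := fun _ => ℕ) n
        (Fin.cons (α := fun _ => ℕ) n' h)) + bb m b E j)) = PE b E h n * PE b E h n' := by
    intro n n' h
    simp only [lin_cc]
    rw [Fintype.prod_prod_type]
    simp only [Fintype.prod_bool, bb]
    unfold PE
    rw [← prod_mul_distrib, ← prod_coe_sort E]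
    refine prod_congr rfl fun x _ => ?_
    rw [mul_comm]
    simp
  simp only [h1]
  have h2 : ∀ h : Fin m → ℕ, Sh b E y h ^ 2 = ∑ n ∈ Icc 1 y, ∑ n' ∈ Icc 1 y,
      PE b E h n * PE b E h n' := by
    intro h
    rw [sq, Sh, sum_mul_sum]
  simp only [h2]
  exact (sum_congr rfl fun n _ => sum_comm).trans sum_comm

/-- the sum of the absolute values -/
noncomputable def TE {m k : ℕ} (b : Fin k → ℕ) (E : Finset (Option (Fin m) × Fin k)) (y : ℕ) : ℝ :=
  ∑ h ∈ ib m y, |Sh b E y h|

lemma TE_sq {m k : ℕ} (b : Fin k → ℕ) (E : Finset (Option (Fin m) × Fin k)) (y : ℕ) :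
    TE b E y ^ 2 ≤ (y : ℝ) ^ m * SF (cc m k E) (bb m b E) y := by
  have h := sq_sum_le_card_mul_sum_sq (s := ib m y) (f := fun h => |Sh b E y h|)
  rw [card_ib] at h
  simp only [sq_abs] at h
  rw [SF_eq]
  push_cast at h
  exact h

lemma mem_clu {m k : ℕ} (E : Finset (Option (Fin m) × Fin k)) (x0 : {x // x ∈ E})
    (j : {x // x ∈ E} × Bool) :
    j ∈ clu (cc m k E) (x0, false) ↔ j.2 = false ∧ j.1.1.1 = x0.1.1 := by
  unfold clu
  rw [mem_filter]
  have hpos : ∀ j : {x // x ∈ E} × Bool, 0 < ∑ l', cc m k E j l' := by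
    intro j
    rw [Fin.sum_univ_succ, Fin.sum_univ_succ, cc_zero, cc_one]
    by_cases hj : j.2 = true
    · simp only [if_pos hj]; omega
    · simp only [if_neg hj]; omega
  constructor
  · rintro ⟨-, h⟩
    have h0 := h 0
    rw [cc_zero, cc_zero] at h0
    have he : j.2 = false := by
      by_contra hc
      have hc' : j.2 = true := by simpa using hc
      rw [if_pos hc'] at h0
      simp at h0
      have := hpos j
      have h3 : (∑ l', cc m k E j l') = 0 := by
        rw [Finset.sum_eq_zero_iff]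
        intro i _
        exact h0 i
      omega
    refine ⟨he, ?_⟩
    rw [he] at h0
    simp only [Bool.false_eq_true, if_false, mul_one] at h0
    have h1 : ∀ l : Fin m, cc m k E (x0, false) l.succ.succ = cc m k E j l.succ.succ := by
      intro l
      have h2 := h l.succ.succ
      rw [h0] at h2
      exact Nat.eq_of_mul_eq_mul_left (hpos (x0, false)) h2
    simp only [cc_succ] at h1
    cases ho : j.1.1.1 with
    | none =>
      cases ho' : x0.1.1 with
      | none => rfl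
      | some i =>
        have := h1 i
        rw [ho, ho'] at this
        simp at this
    | some i =>
      have := h1 i
      rw [ho] at this
      simp at this
      exact this.symm
  · rintro ⟨h1, h2⟩
    refine ⟨mem_univ _, fun l => ?_⟩
    have h3 : cc m k E j = cc m k E (x0, false) := by
      unfold cc
      rw [h1, h2]
    rw [h3]

lemma good {m k : ℕ} (b : Fin k → ℕ) (hk : k ≤ 3) (hb : Function.Injective b)
    (E : Finset (Option (Fin m) × Fin k)) (hE : E.Nonempty) : Good (cc m k E) (bb m b E) := by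
  classical
  obtain ⟨x, hx⟩ := hE
  obtain ⟨x0, hx0⟩ : ∃ x0 : {x // x ∈ E}, x0 = ⟨x, hx⟩ := ⟨_, rfl⟩
  refine ⟨(x0, false), ?_⟩
  by_cases hodd : Odd (clu (cc m k E) (x0, false)).card
  · exact Or.inl hodd
  · right
    have hmem0 : (x0, false) ∈ clu (cc m k E) (x0, false) := (mem_clu E x0 _).2 ⟨rfl, rfl⟩
    -- the injection to `Fin k`
    have hinj : Set.InjOn (fun j : {x // x ∈ E} × Bool => j.1.1.2)
        (clu (cc m k E) (x0, false) : Set ({x // x ∈ E} × Bool)) := by
      intro j hj j' hj' he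
      have h1 := (mem_clu E x0 j).1 hj
      have h2 := (mem_clu E x0 j').1 hj'
      have h3 : j.1.1 = j'.1.1 := Prod.ext (h1.2.trans h2.2.symm) he
      exact Prod.ext (Subtype.ext h3) (h1.1.trans h2.1.symm)
    have hcard : (clu (cc m k E) (x0, false)).card ≤ 3 := by
      have h1 := card_le_card_of_injOn (t := (univ : Finset (Fin k))) _ (fun _ _ => mem_univ _) hinj
      rw [card_univ, Fintype.card_fin] at h1
      omega
    have hcard2 : (clu (cc m k E) (x0, false)).card = 2 := by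
      have h1 : 0 < (clu (cc m k E) (x0, false)).card := card_pos.2 ⟨_, hmem0⟩
      rw [Nat.not_odd_iff_even] at hodd
      obtain ⟨q, hq⟩ := hodd
      omega
    obtain ⟨x1, hx1, hx1'⟩ : ∃ x1 ∈ clu (cc m k E) (x0, false), x1 ≠ (x0, false) :=
      exists_mem_ne (by omega) _
    have hall : ∀ j ∈ clu (cc m k E) (x0, false), j ≠ (x0, false) → j = x1 := by
      intro j hj hj0
      by_contra hne
      have h3 : ({(x0, false), x1, j} : Finset ({x // x ∈ E} × Bool)) ⊆
          clu (cc m k E) (x0, false) := by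
        intro z hz
        simp only [mem_insert, mem_singleton] at hz
        rcases hz with rfl | rfl | rfl
        · exact hmem0
        · exact hx1
        · exact hj
      have h4 := card_le_card h3
      rw [card_eq_three.2 ⟨(x0, false), x1, j, hx1'.symm, hj0.symm, fun h => hne h.symm, rfl⟩] at h4
      omega
    have hv : ∀ j ∈ clu (cc m k E) (x0, false), ∑ l, (cc m k E j l : ℤ) *
        (Pi.single (0 : Fin (m + 2)) (-(b x1.1.1.2 : ℤ)) : Fin (m + 2) → ℤ) l =
          -(b x1.1.1.2 : ℤ) := by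
      intro j hj
      have h1 := ((mem_clu E x0 j).1 hj).1
      rw [sum_eq_single (0 : Fin (m + 2))]
      · rw [cc_zero, h1]
        simp
      · intro l _ hl
        rw [Pi.single_eq_of_ne hl, mul_zero]
      · intro h
        exact absurd (mem_univ _) h
    refine ⟨(x0, false), hmem0, Pi.single (0 : Fin (m + 2)) (-(b x1.1.1.2 : ℤ)), 1, ?_, ?_⟩
    · rw [hv _ hmem0]
      show -(b x1.1.1.2 : ℤ) + (b x0.1.2 : ℤ) * 1 ≠ 0
      intro h
      have h1 : (b x0.1.2 : ℤ) = b x1.1.1.2 := by linarith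
      have h2 : b x0.1.2 = b x1.1.1.2 := by exact_mod_cast h1
      exact hx1' (hinj hx1 hmem0 (hb h2).symm)
    · intro j hj hj0
      rw [hv j hj, hall j hj hj0]
      show -(b x1.1.1.2 : ℤ) + (b x1.1.1.2 : ℤ) * 1 = 0
      ring

lemma Few_mono {X X' : ℕ → ℝ} (h : ∀ y, X y ≤ X' y) (hX' : Few X') : Few X := by
  classical
  intro ε hε
  obtain ⟨C, hC⟩ := hX' ε hε
  refine ⟨C, fun J => ?_⟩
  obtain ⟨N₀, hN₀⟩ := hC J
  refine ⟨N₀, fun N hN => le_trans ?_ (hN₀ N hN)⟩
  refine sum_le_sum_of_subset_of_nonneg ?_ (fun i _ _ => by positivity)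
  intro i hi
  unfold ex at hi ⊢
  rw [mem_filter] at hi ⊢
  obtain ⟨y, hy1, hy2, hy3⟩ := hi.2
  exact ⟨hi.1, y, hy1, hy2, hy3.trans_le (h y)⟩

lemma Few_zero : Few (fun _ => 0) := by
  classical
  intro ε hε
  refine ⟨0, fun J => ⟨0, fun N _ => ?_⟩⟩
  have : ex (fun _ => (0 : ℝ)) ε J N = ∅ := by
    unfold ex
    rw [filter_eq_empty_iff]
    rintro i - ⟨y, -, -, h⟩
    exact absurd h (not_lt.2 hε.le)
  rw [this, sum_empty]

lemma Few_add {X X' : ℕ → ℝ} (hX : Few X) (hX' : Few X') : Few (fun y => X y + X' y) := by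
  classical
  intro ε hε
  obtain ⟨C, hC⟩ := hX (ε / 2) (by linarith)
  obtain ⟨C', hC'⟩ := hX' (ε / 2) (by linarith)
  refine ⟨C + C', fun J => ?_⟩
  obtain ⟨N₀, hN₀⟩ := hC J
  obtain ⟨N₁, hN₁⟩ := hC' J
  refine ⟨max N₀ N₁, fun N hN => ?_⟩
  have h1 := hN₀ N ((le_max_left _ _).trans hN)
  have h2 := hN₁ N ((le_max_right _ _).trans hN)
  have hsub : ex (fun y => X y + X' y) ε J N ⊆ ex X (ε / 2) J N ∪ ex X' (ε / 2) J N := by
    intro i hi
    rw [mem_union]
    unfold ex at hi ⊢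
    rw [mem_filter] at hi
    obtain ⟨y, hy1, hy2, hy3⟩ := hi.2
    rcases lt_or_ge (ε / 2) (X y) with h | h
    · left
      exact mem_filter.2 ⟨hi.1, y, hy1, hy2, h⟩
    · right
      exact mem_filter.2 ⟨hi.1, y, hy1, hy2, by simp only at hy3; linarith⟩
  calc _ ≤ ∑ i ∈ ex X (ε / 2) J N ∪ ex X' (ε / 2) J N, 1 / (i : ℝ) :=
        sum_le_sum_of_subset_of_nonneg hsub (fun i _ _ => by positivity)
    _ ≤ (∑ i ∈ ex X (ε / 2) J N, 1 / (i : ℝ)) + ∑ i ∈ ex X' (ε / 2) J N, 1 / (i : ℝ) := by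
        rw [← sum_union_inter]
        have : 0 ≤ ∑ i ∈ ex X (ε / 2) J N ∩ ex X' (ε / 2) J N, 1 / (i : ℝ) :=
          sum_nonneg fun i _ => by positivity
        linarith
    _ ≤ C + C' := add_le_add h1 h2

lemma Few_sum {α : Type} (s : Finset α) (X : α → ℕ → ℝ) (h : ∀ a ∈ s, Few (X a)) :
    Few (fun y => ∑ a ∈ s, X a y) := by
  classical
  induction s using Finset.induction_on with
  | empty => simpa using Few_zero
  | insert a s ha ih =>
    have h1 := Few_add (h a (mem_insert_self a s)) (ih fun a' ha' => h a' (mem_insert_of_mem ha'))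
    simpa only [sum_insert ha] using h1

lemma Few_TE (hM : S_MAIN) {m k : ℕ} (b : Fin k → ℕ) (hk : k ≤ 3) (hb : Function.Injective b)
    (E : Finset (Option (Fin m) × Fin k)) (hE : E.Nonempty) :
    Few (fun y => TE b E y / (y : ℝ) ^ (m + 1)) := by
  classical
  intro ε hε
  obtain ⟨C, hC⟩ := hM (m + 2) _ (cc m k E) (bb m b E) (cc_ne E) (good b hk hb E hE) (ε ^ 2)
    (by positivity)
  refine ⟨C, fun J => ?_⟩
  obtain ⟨N₀, hN₀⟩ := hC J
  refine ⟨N₀, fun N hN => le_trans ?_ (hN₀ N hN)⟩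
  refine sum_le_sum_of_subset_of_nonneg ?_ (fun i _ _ => by positivity)
  intro i hi
  unfold ex at hi ⊢
  rw [mem_filter] at hi ⊢
  refine ⟨hi.1, ?_⟩
  obtain ⟨y, hy1, hy2, hy3⟩ := hi.2
  refine ⟨y, hy1, hy2, ?_⟩
  rcases Nat.eq_zero_or_pos y with h0 | h0
  · exfalso
    subst h0
    simp at hy3
    linarith
  have hy : (0 : ℝ) < y := by exact_mod_cast h0
  have h1 : ε ^ 2 < (TE b E y / (y : ℝ) ^ (m + 1)) ^ 2 := by
    exact pow_lt_pow_left₀ hy3 hε.le (by norm_num)
  have h2 : (TE b E y / (y : ℝ) ^ (m + 1)) ^ 2 ≤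
      SF (cc m k E) (bb m b E) y / (y : ℝ) ^ (m + 2) := by
    rw [div_pow, div_le_div_iff₀ (by positivity) (by positivity)]
    calc TE b E y ^ 2 * (y : ℝ) ^ (m + 2) ≤
        ((y : ℝ) ^ m * SF (cc m k E) (bb m b E) y) * (y : ℝ) ^ (m + 2) :=
          mul_le_mul_of_nonneg_right (TE_sq b E y) (by positivity)
      _ = SF (cc m k E) (bb m b E) y * ((y : ℝ) ^ (m + 1)) ^ 2 := by ring
  have h3 : SF (cc m k E) (bb m b E) y / (y : ℝ) ^ (m + 2) ≤
      |SF (cc m k E) (bb m b E) y| / (y : ℝ) ^ (m + 2) :=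
    div_le_div_of_nonneg_right (le_abs_self _) (by positivity)
  exact lt_of_lt_of_le h1 (h2.trans h3)

lemma lam_cases (n : ℕ) : lam n = 1 ∨ lam n = -1 := neg_one_pow_eq_or ℝ _

/-- the sign -/
def sg (t : Bool) : ℝ := if t then 1 else -1

lemma sg_abs (t : Bool) : |sg t| = 1 := by
  cases t <;> simp [sg]

lemma ind_eq (t : Bool) (n : ℕ) :
    (if lam n = (if t then 1 else -1) then (1 : ℝ) else 0) = (1 + sg t * lam n) / 2 := by
  rcases lam_cases n with h | h <;> cases t <;> simp [sg, h] <;> norm_num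

lemma cnt_eq {m k : ℕ} (b : Fin k → ℕ) (h : Fin m → ℕ) (s : Option (Fin m) × Fin k → Bool)
    (y : ℕ) : (cntP b h s y : ℝ) = (1 / 2 ^ ((m + 1) * k)) *
      ∑ E : Finset (Option (Fin m) × Fin k), (∏ x ∈ E, sg (s x)) * Sh b E y h := by
  classical
  have h1 : (cntP b h s y : ℝ) = ∑ n ∈ Icc 1 y, ∏ x : Option (Fin m) × Fin k,
      (if lam (n + hh h x.1 + b x.2) = (if s x then 1 else -1) then (1 : ℝ) else 0) := by
    unfold cntP
    rw [card_filter]
    push_cast
    refine sum_congr rfl fun n _ => ?_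
    rw [prod_ite_zero]
    simp only [prod_const_one]
    congr 1
    simp
  rw [h1]
  have h2 : ∀ n : ℕ, (∏ x : Option (Fin m) × Fin k,
      (if lam (n + hh h x.1 + b x.2) = (if s x then 1 else -1) then (1 : ℝ) else 0)) =
      (1 / 2 ^ ((m + 1) * k)) * ∑ E : Finset (Option (Fin m) × Fin k),
        (∏ x ∈ E, sg (s x)) * PE b E h n := by
    intro n
    simp only [ind_eq]
    rw [prod_div_distrib, prod_const, card_univ]
    have h3 : Fintype.card (Option (Fin m) × Fin k) = (m + 1) * k := by simp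
    rw [h3, prod_one_add, ← powerset_univ, div_eq_inv_mul, one_div]
    congr 1
    refine sum_congr rfl fun E _ => ?_
    rw [prod_mul_distrib, PE]
  simp only [h2]
  rw [← mul_sum, sum_comm]
  congr 1
  refine sum_congr rfl fun E _ => ?_
  rw [← mul_sum, Sh]

lemma dev_le {m k : ℕ} (b : Fin k → ℕ) (y : ℕ) :
    devP m b y ≤ ∑ E ∈ (univ : Finset (Finset (Option (Fin m) × Fin k))).erase ∅, TE b E y := by
  classical
  unfold devP TE
  have hswap : ∑ E ∈ (univ : Finset (Finset (Option (Fin m) × Fin k))).erase ∅,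
      ∑ h ∈ ib m y, |Sh b E y h| = ∑ h ∈ ib m y,
      ∑ E ∈ (univ : Finset (Finset (Option (Fin m) × Fin k))).erase ∅, |Sh b E y h| := sum_comm
  rw [hswap]
  refine sum_le_sum fun h _ => ?_
  have h1 : ∀ s : Option (Fin m) × Fin k → Bool,
      |(cntP b h s y : ℝ) - y / 2 ^ ((m + 1) * k)| ≤ (1 / 2 ^ ((m + 1) * k)) *
        ∑ E ∈ (univ : Finset (Finset (Option (Fin m) × Fin k))).erase ∅, |Sh b E y h| := by
    intro s
    rw [cnt_eq, ← add_sum_erase univ _ (mem_univ ∅)]
    have h0 : (∏ x ∈ (∅ : Finset (Option (Fin m) × Fin k)), sg (s x)) * Sh b ∅ y h = y := by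
      simp [Sh, PE]
    rw [h0]
    have e1 : (1 / 2 ^ ((m + 1) * k) : ℝ) * ((y : ℝ) +
        ∑ E ∈ (univ : Finset (Finset (Option (Fin m) × Fin k))).erase ∅,
          (∏ x ∈ E, sg (s x)) * Sh b E y h) - y / 2 ^ ((m + 1) * k) =
        (1 / 2 ^ ((m + 1) * k)) *
          ∑ E ∈ (univ : Finset (Finset (Option (Fin m) × Fin k))).erase ∅,
            (∏ x ∈ E, sg (s x)) * Sh b E y h := by ring
    rw [e1, abs_mul, abs_of_nonneg (by positivity)]
    refine mul_le_mul_of_nonneg_left ?_ (by positivity)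
    refine (abs_sum_le_sum_abs _ _).trans (sum_le_sum fun E _ => ?_)
    rw [abs_mul, abs_prod]
    simp only [sg_abs, prod_const_one, one_mul, le_refl]
  refine (sum_le_sum (s := (univ : Finset (Option (Fin m) × Fin k → Bool)))
    (fun s _ => h1 s)).trans ?_
  rw [sum_const, card_univ, nsmul_eq_mul, ← mul_assoc]
  have h3 : (Fintype.card (Option (Fin m) × Fin k → Bool) : ℝ) = 2 ^ ((m + 1) * k) := by
    simp
  rw [h3, mul_one_div_cancel (by positivity), one_mul]

theorem t_PAT : S_MAIN → S_PAT := by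
  classical
  intro hM m k b hk hb
  have h1 : Few (fun y => ∑ E ∈ (univ : Finset (Finset (Option (Fin m) × Fin k))).erase ∅,
      TE b E y / (y : ℝ) ^ (m + 1)) := by
    refine Few_sum _ (fun E y => TE b E y / (y : ℝ) ^ (m + 1)) fun E hE => ?_
    exact Few_TE hM b hk hb E (nonempty_iff_ne_empty.2 (mem_erase.1 hE).1)
  refine Few_mono (fun y => ?_) h1
  rw [← sum_div]
  exact div_le_div_of_nonneg_right (dev_le b y) (by positivity)

end Pool.Agent.N781.G.PAT
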