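import Pool.Agent.N781.G.Stm

/-! Project G, piece SHI: sums over the torus are shift invariant (helper289). -/

set_option autoImplicit false

namespace Pool.Agent.N781.G.SHI

open Pool.Agent.N781.G Finset Pool.Agent.TH575.CW

lemma mem_rb {r N : ℕ} {z : Fin r → ℕ} : z ∈ rb r N ↔ ∀ l, z l < N := by
  simp [rb, Fintype.mem_piFinset]

lemma card_rb (r N : ℕ) : (rb r N).card = N ^ r := by
  simp [rb, Fintype.card_piFinset]

/-- shifting and shifting back -/
lemma back {N x a : ℕ} (hN : 1 ≤ N) (hx : x < N) : ((x + a) % N + (N - a % N)) % N = x := by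
  rw [Nat.mod_add_mod]
  have h1 : a % N < N := Nat.mod_lt _ hN
  have h2 := Nat.mod_add_div a N
  have h3 : x + a + (N - a % N) = x + N * (a / N + 1) := by
    rw [Nat.mul_add, Nat.mul_one]
    omega
  rw [h3, Nat.add_mul_mod_self_left, Nat.mod_eq_of_lt hx]

lemma forth {N x a : ℕ} (hN : 1 ≤ N) (hx : x < N) : ((x + (N - a % N)) % N + a) % N = x := by
  rw [Nat.mod_add_mod]
  have h1 : a % N < N := Nat.mod_lt _ hN
  have h2 := Nat.mod_add_div a N
  have h3 : x + (N - a % N) + a = x + N * (a / N + 1) := by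
    rw [Nat.mul_add, Nat.mul_one]
    omega
  rw [h3, Nat.add_mul_mod_self_left, Nat.mod_eq_of_lt hx]

/-- sums of periodic functions are shift invariant -/
lemma shift {r N : ℕ} (hN : 1 ≤ N) (F : (Fin r → ℕ) → ℝ) (hF : ∀ z, F (fun l => z l % N) = F z)
    (a : Fin r → ℕ) : ∑ z ∈ rb r N, F (fun l => z l + a l) = ∑ z ∈ rb r N, F z := by
  refine Finset.sum_nbij' (fun z l => (z l + a l) % N) (fun z l => (z l + (N - a l % N)) % N) ?_ ?_ ?_ ?_ ?_
  · intro z _
    exact mem_rb.2 fun l => Nat.mod_lt _ hN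
  · intro z _
    exact mem_rb.2 fun l => Nat.mod_lt _ hN
  · intro z hz
    funext l
    exact back hN (mem_rb.1 hz l)
  · intro z hz
    funext l
    exact forth hN (mem_rb.1 hz l)
  · intro z _
    exact (hF fun l => z l + a l).symm

lemma lin_mod {r N : ℕ} (c z : Fin r → ℕ) (u : ℕ) :
    (lin c (fun l => z l % N) + u) % N = (lin c z + u) % N := by
  apply (ZMod.natCast_eq_natCast_iff' _ _ N).1
  unfold lin
  push_cast
  simp

lemma Phi_mod {ι T : Type} [Fintype ι] {r : ℕ} (v : T → ℝ) (c : ι → Fin r → ℕ) (X : ι → ℕ → T) (N : ℕ)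
    (u : ι → ℕ) (z : Fin r → ℕ) : Phi v c X N u (fun l => z l % N) = Phi v c X N u z := by
  unfold Phi
  apply Finset.prod_congr rfl
  intro j _
  rw [lin_mod]

lemma wt_zero {r : ℕ} (p : ℕ) (z a : Fin r → ℕ) (x : ℝ) :
    wt 0 p z a * x = if ∀ l, p ∣ z l + a l then x else 0 := by
  unfold wt
  split_ifs with h
  · rw [Finset.prod_eq_one, one_mul]
    intro l _
    simp [h l]
  · push Not at h
    obtain ⟨l, hl⟩ := h
    rw [Finset.prod_eq_zero (Finset.mem_univ l), zero_mul]
    simp [hl]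

lemma wt_top {r : ℕ} (p : ℕ) (z a : Fin r → ℕ) : wt r p z a = (1 / (p : ℝ)) ^ r := by
  unfold wt
  rw [Finset.prod_congr rfl (g := fun _ => 1 / (p : ℝ)) (fun l _ => if_pos l.isLt)]
  simp

theorem t_SHI : S_SHI := by
  intro r ι T _ v c X N p i u hN _ hp
  constructor
  · obtain ⟨F, hF⟩ : ∃ F : (Fin r → ℕ) → ℝ, ∀ w, F w = if ∀ l, p ∣ w l then Phi v c X N u w else 0 :=
      ⟨_, fun _ => rfl⟩
    have h1 : ∀ z : Fin r → ℕ, Av 0 p i (Phi v c X N u) z = ∑ a ∈ rb r (2 ^ i), F (fun l => z l + a l) := by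
      intro z
      unfold Av
      exact Finset.sum_congr rfl fun a _ => by rw [hF]; exact wt_zero p z a _
    rw [Finset.sum_congr rfl fun z _ => h1 z, Finset.sum_comm]
    have h2 : ∀ w : Fin r → ℕ, F (fun l => w l % N) = F w := by
      intro w
      rw [hF, hF]
      simp only [Phi_mod, Nat.dvd_mod_iff hp]
    rw [Finset.sum_congr rfl fun a _ => shift hN F h2 a, Finset.sum_const, card_rb, nsmul_eq_mul,
      Finset.sum_congr rfl fun w _ => hF w]
    push_cast
    ring
  · have h1 : ∀ z : Fin r → ℕ, Av r p i (Phi v c X N u) z = ∑ a ∈ rb r (2 ^ i),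
        (1 / (p : ℝ)) ^ r * Phi v c X N u (fun l => z l + a l) := by
      intro z
      unfold Av
      exact Finset.sum_congr rfl fun a _ => by rw [wt_top]
    rw [Finset.sum_congr rfl fun z _ => h1 z, Finset.sum_comm]
    have h3 : ∀ a ∈ rb r (2 ^ i), ∑ z ∈ rb r N, (1 / (p : ℝ)) ^ r * Phi v c X N u (fun l => z l + a l) =
        (1 / (p : ℝ)) ^ r * ∑ z ∈ rb r N, Phi v c X N u z := by
      intro a _
      rw [← Finset.mul_sum, shift hN _ (Phi_mod v c X N u) a]
    rw [Finset.sum_congr rfl h3, Finset.sum_const, card_rb, nsmul_eq_mul]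
    push_cast
    rw [div_pow, one_pow]
    ring

end Pool.Agent.N781.G.SHI
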