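import Mathlib
import Pool.Agent.N781.G.Stm

/-! Project G: sign patterns on unions of translated blocks of length at most three. -/

set_option autoImplicit false

namespace Pool.Agent.N781.G

open Finset Pool.Agent.TH575.CW

/-- the translations: `0` and `h i` -/
def hh {m : ℕ} (h : Fin m → ℕ) (o : Option (Fin m)) : ℕ := o.elim 0 h

/-- the number of the `n ≤ y` with the signs `s` on the blocks `n + hh h o + {b j}` -/
noncomputable def cntP {m k : ℕ} (b : Fin k → ℕ) (h : Fin m → ℕ) (s : Option (Fin m) × Fin k → Bool)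
    (y : ℕ) : ℕ :=
  ((Icc 1 y).filter (fun n => ∀ o j, lam (n + hh h o + b j) = if s (o, j) then 1 else -1)).card

/-- the deviation from the uniform distribution on the `2 ^ ((m + 1) k)` patterns, in mean over the
translations -/
noncomputable def devP {k : ℕ} (m : ℕ) (b : Fin k → ℕ) (y : ℕ) : ℝ :=
  ∑ h ∈ ib m y, ∑ s : Option (Fin m) × Fin k → Bool, |(cntP b h s y : ℝ) - y / 2 ^ ((m + 1) * k)|

/-- the patterns on `m + 1` blocks of at most three points -/
def S_PAT : Prop :=
  ∀ (m k : ℕ) (b : Fin k → ℕ), k ≤ 3 → Function.Injective b →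
    Few (fun y => devP m b y / (y : ℝ) ^ (m + 1))

end Pool.Agent.N781.G
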