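import Pool.Agent.N781.G.Stm
import Pool.Agent.H469R2.NK.Vdc

/-! From cubes to all additive twists. -/

set_option autoImplicit false

namespace Pool.Agent.N781.G.TWI

open Pool.Agent.N781.G Finset Pool.Agent.TH575.CW

lemma abs_lam (m : ℕ) : |lam m| = 1 := by
  unfold lam
  rw [abs_pow, abs_neg, abs_one, one_pow]

lemma abs_XP {k : ℕ} (b : Fin k → ℕ) (n : ℕ) : |XP b n| = 1 := by
  unfold XP
  rw [Finset.abs_prod]
  exact Finset.prod_eq_one fun j _ => abs_lam _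

/-- the additive character -/
noncomputable def ee (α : ℝ) (n : ℕ) : ℂ := Complex.exp (2 * Real.pi * Complex.I * α * n)

lemma ee_norm (α : ℝ) (n : ℕ) : ‖ee α n‖ = 1 := by
  unfold ee
  have : (2 * Real.pi * Complex.I * α * n : ℂ) = ((2 * Real.pi * α * n : ℝ) : ℂ) * Complex.I := by
    push_cast
    ring
  rw [this, Complex.norm_exp_ofReal_mul_I]

lemma ee_add (α : ℝ) (m n : ℕ) : ee α (m + n) = ee α m * ee α n := by
  unfold ee
  rw [← Complex.exp_add]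
  congr 1
  push_cast
  ring

lemma ee_conj (α : ℝ) (n : ℕ) : ee α n * (starRingEnd ℂ) (ee α n) = 1 := by
  rw [Complex.mul_conj, Complex.normSq_eq_norm_sq, ee_norm]
  simp

lemma cube_one {k : ℕ} (b : Fin k → ℕ) (y : ℕ) :
    cube b 1 y = ∑ l ∈ Icc 1 y, |∑ n ∈ Icc 1 y, XP b n * XP b (n + l)| := by
  unfold cube ib
  refine Finset.sum_equiv (Equiv.funUnique (Fin 1) ℕ) ?_ ?_
  · intro h
    rw [Fintype.mem_piFinset]
    constructor
    · intro hh
      exact hh 0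
    · intro hh j
      have : j = 0 := Subsingleton.elim _ _
      rw [this]
      exact hh
  · intro h _
    congr 1
    refine Finset.sum_congr rfl fun n _ => ?_
    have hu : (Finset.univ : Finset (Finset (Fin 1))) = {∅, {0}} := by decide
    rw [hu, Finset.prod_pair (by decide)]
    simp

lemma corr {k : ℕ} (b : Fin k → ℕ) {y l : ℕ} (hl : l ≤ y) :
    |∑ n ∈ range (y - l), XP b (n + 1) * XP b (n + 1 + l)| ≤
      |∑ n ∈ Icc 1 y, XP b n * XP b (n + l)| + l := by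
  have h1 : ∑ n ∈ Icc 1 y, XP b n * XP b (n + l) =
      ∑ n ∈ range y, XP b (n + 1) * XP b (n + 1 + l) := by
    have : Icc 1 y = Ico 1 (y + 1) := by
      ext n
      simp only [mem_Icc, mem_Ico]
      omega
    rw [this, Finset.sum_Ico_eq_sum_range]
    refine Finset.sum_congr (by simp) fun n _ => ?_
    rw [add_comm 1 n]
  have h2 : ∑ n ∈ range y, XP b (n + 1) * XP b (n + 1 + l) =
      ∑ n ∈ range (y - l), XP b (n + 1) * XP b (n + 1 + l) +
        ∑ n ∈ range l, XP b (y - l + n + 1) * XP b (y - l + n + 1 + l) := by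
    conv_lhs => rw [← Nat.sub_add_cancel hl]
    rw [Finset.sum_range_add]
  have h3 : |∑ n ∈ range l, XP b (y - l + n + 1) * XP b (y - l + n + 1 + l)| ≤ l := by
    refine (Finset.abs_sum_le_sum_abs _ _).trans ?_
    refine (Finset.sum_le_card_nsmul _ _ 1 fun n _ => ?_).trans (by simp)
    rw [abs_mul, abs_XP, abs_XP, one_mul]
  rw [h1, h2]
  have h4 := abs_le.1 h3
  rw [abs_le]
  constructor
  · have := neg_abs_le (∑ n ∈ range (y - l), XP b (n + 1) * XP b (n + 1 + l) +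
        ∑ n ∈ range l, XP b (y - l + n + 1) * XP b (y - l + n + 1 + l))
    linarith
  · have := le_abs_self (∑ n ∈ range (y - l), XP b (n + 1) * XP b (n + 1 + l) +
        ∑ n ∈ range l, XP b (y - l + n + 1) * XP b (y - l + n + 1 + l))
    linarith

lemma twist {k : ℕ} (b : Fin k → ℕ) (α : ℝ) {y H : ℕ} (hH : H ≤ y) :
    (H : ℝ) * ‖∑ n ∈ Icc 1 y, (XP b n : ℂ) * ee α n‖ ^ 2 ≤
      (y + H) * (y + 2 * (cube b 1 y + H ^ 2)) := by
  have h0 : ∑ n ∈ Icc 1 y, (XP b n : ℂ) * ee α n =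
      ∑ n ∈ range y, (XP b (n + 1) : ℂ) * ee α (n + 1) := by
    have : Icc 1 y = Ico 1 (y + 1) := by
      ext n
      simp only [mem_Icc, mem_Ico]
      omega
    rw [this, Finset.sum_Ico_eq_sum_range]
    refine Finset.sum_congr (by simp) fun n _ => ?_
    rw [add_comm 1 n]
  have h1 := Pool.Agent.H469R2.NK.vdcH (fun n => (XP b (n + 1) : ℂ) * ee α (n + 1)) (fun n => by
    rw [norm_mul, ee_norm, Complex.norm_real, Real.norm_eq_abs, abs_XP, one_mul]) y H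
  rw [h0]
  refine h1.trans ?_
  apply mul_le_mul_of_nonneg_left _ (by positivity)
  have h2 : ∀ l ∈ Ico 1 H, ‖∑ n ∈ range (y - l), (XP b (n + l + 1) : ℂ) * ee α (n + l + 1) *
      (starRingEnd ℂ) ((XP b (n + 1) : ℂ) * ee α (n + 1))‖ ≤
      |∑ n ∈ Icc 1 y, XP b n * XP b (n + l)| + H := by
    intro l hl
    rw [mem_Ico] at hl
    have e1 : ∑ n ∈ range (y - l), (XP b (n + l + 1) : ℂ) * ee α (n + l + 1) *
      (starRingEnd ℂ) ((XP b (n + 1) : ℂ) * ee α (n + 1)) =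
      ee α l * ((∑ n ∈ range (y - l), XP b (n + 1) * XP b (n + 1 + l) : ℝ) : ℂ) := by
      push_cast
      rw [Finset.mul_sum]
      refine Finset.sum_congr rfl fun n _ => ?_
      have e2 : n + l + 1 = l + (n + 1) := by ring
      have e3 : n + 1 + l = l + (n + 1) := by ring
      rw [map_mul, Complex.conj_ofReal, e2, e3, ee_add]
      have := ee_conj α (n + 1)
      linear_combination ((XP b (l + (n + 1)) : ℂ) * XP b (n + 1) * ee α l) * this
    rw [e1, norm_mul, ee_norm, one_mul, Complex.norm_real, Real.norm_eq_abs]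
    have e4 := corr b (y := y) (l := l) (by omega)
    have e5 : (l : ℝ) ≤ H := by exact_mod_cast hl.2.le
    linarith
  have h3 : ∑ l ∈ Ico 1 H, ‖∑ n ∈ range (y - l), (XP b (n + l + 1) : ℂ) * ee α (n + l + 1) *
      (starRingEnd ℂ) ((XP b (n + 1) : ℂ) * ee α (n + 1))‖ ≤ cube b 1 y + H ^ 2 := by
    refine (Finset.sum_le_sum h2).trans ?_
    rw [Finset.sum_add_distrib]
    refine add_le_add ?_ ?_
    · rw [cube_one]
      refine Finset.sum_le_sum_of_subset_of_nonneg ?_ fun _ _ _ => abs_nonneg _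
      intro l hl
      rw [mem_Ico] at hl
      rw [mem_Icc]
      omega
    · rw [Finset.sum_const, Nat.card_Ico, nsmul_eq_mul, sq]
      apply mul_le_mul_of_nonneg_right _ (Nat.cast_nonneg H)
      exact_mod_cast Nat.sub_le H 1
  linarith

lemma key {ε : ℝ} (hε : 0 < ε) : ∃ (ε' : ℝ) (Y : ℕ), 0 < ε' ∧ 1 ≤ Y ∧
    ∀ (k : ℕ) (b : Fin k → ℕ) (y : ℕ), Y ≤ y → cube b 1 y / (y : ℝ) ^ (1 + 1) ≤ ε' →
      (⨆ α : ℝ, ‖∑ n ∈ Icc 1 y, (XP b n : ℂ) *
        Complex.exp (2 * Real.pi * Complex.I * α * n)‖) / y ≤ ε := by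
  obtain ⟨δ, hδ⟩ : ∃ δ : ℝ, δ = min 1 (ε ^ 2 / 32) := ⟨_, rfl⟩
  have hδ0 : 0 < δ := by
    rw [hδ]
    exact lt_min one_pos (by positivity)
  have hδ1 : δ ≤ 1 := by rw [hδ]; exact min_le_left _ _
  have hδ2 : δ ≤ ε ^ 2 / 32 := by rw [hδ]; exact min_le_right _ _
  obtain ⟨Y, hY⟩ := exists_nat_gt (max (16 / (δ * ε ^ 2)) (2 / δ))
  refine ⟨ε ^ 2 * δ / 32, max Y 1, by positivity, le_max_right _ _, ?_⟩
  intro k b y hy hcube
  have hy1 : (1 : ℝ) ≤ y := by exact_mod_cast (le_max_right _ _).trans hy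
  have hy0 : (0 : ℝ) < y := by linarith
  have hyY : (Y : ℝ) ≤ y := by exact_mod_cast (le_max_left _ _).trans hy
  have hy2 : 16 / (δ * ε ^ 2) < y := ((le_max_left _ _).trans_lt hY).trans_le hyY
  have hy3 : 2 / δ < y := ((le_max_right _ _).trans_lt hY).trans_le hyY
  rw [div_lt_iff₀ (by positivity)] at hy2 hy3
  rw [div_le_iff₀ hy0]
  refine ciSup_le fun α => ?_
  obtain ⟨H, hH⟩ : ∃ H : ℕ, H = ⌊δ * y⌋₊ := ⟨_, rfl⟩
  have hH1 : (H : ℝ) ≤ δ * y := by rw [hH]; exact Nat.floor_le (by positivity)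
  have hH2 : δ * y < H + 1 := by rw [hH]; exact Nat.lt_floor_add_one _
  have hH3 : δ * y / 2 ≤ H := by linarith
  have hHy : H ≤ y := by
    have : (H : ℝ) ≤ y := hH1.trans (by nlinarith)
    exact_mod_cast this
  have hH0 : (0 : ℝ) < H := lt_of_lt_of_le (by positivity) hH3
  have h1 := twist b α hHy
  rw [div_le_iff₀ (by positivity)] at hcube
  have hc0 : 0 ≤ cube b 1 y := Finset.sum_nonneg fun _ _ => abs_nonneg _
  have hHy' : (H : ℝ) ≤ y := by exact_mod_cast hHy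
  -- the bound
  have h2 : (y + (H : ℝ)) * (y + 2 * (cube b 1 y + H ^ 2)) ≤
      2 * y * (y + 2 * (ε ^ 2 * δ / 32 * (y : ℝ) ^ 2 + (δ * y) ^ 2)) := by
    have e1 : cube b 1 y ≤ ε ^ 2 * δ / 32 * (y : ℝ) ^ 2 := hcube
    have e2 : (H : ℝ) ^ 2 ≤ (δ * y) ^ 2 := pow_le_pow_left₀ hH0.le hH1 2
    exact mul_le_mul (by linarith) (by linarith) (by positivity) (by positivity)
  have h3 : 2 * y * (y + 2 * (ε ^ 2 * δ / 32 * (y : ℝ) ^ 2 + (δ * y) ^ 2)) ≤
      δ * y / 2 * (ε * y) ^ 2 := by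
    have e1 : (y : ℝ) ≤ δ * ε ^ 2 / 16 * y ^ 2 := by nlinarith
    have e2 : (δ * y) ^ 2 ≤ δ * (ε ^ 2 / 32) * y ^ 2 := by
      have : δ * δ ≤ δ * (ε ^ 2 / 32) := mul_le_mul_of_nonneg_left hδ2 hδ0.le
      have h4 : (0 : ℝ) ≤ y ^ 2 := by positivity
      nlinarith
    have e3 : y + 2 * (ε ^ 2 * δ / 32 * (y : ℝ) ^ 2 + (δ * y) ^ 2) ≤
        δ * ε ^ 2 * y ^ 2 * (3 / 16) := by nlinarith
    have e4 : 2 * (y : ℝ) * (δ * ε ^ 2 * y ^ 2 * (3 / 16)) ≤ δ * y / 2 * (ε * y) ^ 2 := by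
      have : 0 ≤ δ * ε ^ 2 * (y : ℝ) ^ 3 := by positivity
      nlinarith
    exact (mul_le_mul_of_nonneg_left e3 (by positivity)).trans e4
  have h4 : (H : ℝ) * ‖∑ n ∈ Icc 1 y, (XP b n : ℂ) * ee α n‖ ^ 2 ≤ H * (ε * y) ^ 2 := by
    refine ((h1.trans h2).trans h3).trans ?_
    exact mul_le_mul_of_nonneg_right hH3 (by positivity)
  have h5 := le_of_mul_le_mul_left h4 hH0
  exact (pow_le_pow_iff_left₀ (norm_nonneg _) (by positivity) two_ne_zero).1 h5

theorem t_TWI : S_CUB → S_TWI := by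
  classical
  intro hC k b hb hk ε hε
  obtain ⟨ε', Y, hε', hY, hkey⟩ := key hε
  obtain ⟨C, hC⟩ := hC k b hb hk 1 ε' hε'
  refine ⟨C, fun J => ?_⟩
  obtain ⟨N₀, hN₀⟩ := hC J
  refine ⟨max N₀ (Y * 2 ^ (J + 1)), fun N hN => ?_⟩
  refine le_trans ?_ (hN₀ N ((le_max_left _ _).trans hN))
  refine Finset.sum_le_sum_of_subset_of_nonneg ?_ fun i _ _ => by positivity
  intro i hi
  unfold ex at hi ⊢
  rw [mem_filter] at hi ⊢
  obtain ⟨hi1, y, hy1, hy2, hy3⟩ := hi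
  refine ⟨hi1, y, hy1, hy2, ?_⟩
  by_contra hcon
  rw [not_lt] at hcon
  have hiJ := (mem_Icc.1 hi1).2
  have h1 : Y ≤ y := by
    refine le_trans ?_ hy1
    rw [Nat.le_div_iff_mul_le (by positivity)]
    refine le_trans ?_ ((le_max_right _ _).trans hN)
    exact Nat.mul_le_mul_left _ (Nat.pow_le_pow_right (by norm_num) (by omega))
  have h2 := hkey k b y h1 hcon
  exact absurd hy3 (not_lt.2 h2)

end Pool.Agent.N781.G.TWI
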