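import Pool.Agent.N781.G.Stm

/-! Project G: from the torus to the box (helper887). -/

set_option autoImplicit false

namespace Pool.Agent.N781.G.UNF

open Pool.Agent.N781.G Finset Pool.Agent.TH575.CW

theorem mem_rb {r N : ℕ} {z : Fin r → ℕ} : z ∈ rb r N ↔ ∀ l, z l < N := by
  simp [rb]

theorem mem_ib {r y : ℕ} {z : Fin r → ℕ} : z ∈ ib r y ↔ ∀ l, 1 ≤ z l ∧ z l ≤ y := by
  simp [ib]

theorem lin_single {r : ℕ} (l : Fin r) (z : Fin r → ℕ) : lin (Pi.single l 1) z = z l := by
  unfold lin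
  rw [Finset.sum_eq_single l]
  · rw [Pi.single_eq_same, one_mul]
  · intro m _ hm
    rw [Pi.single_eq_of_ne hm, zero_mul]
  · intro h
    exact absurd (Finset.mem_univ l) h

theorem lin_mul {r : ℕ} (c z : Fin r → ℕ) (p : ℕ) :
    lin c (fun l => p * z l) = p * lin c z := by
  unfold lin
  rw [Finset.mul_sum]
  exact Finset.sum_congr rfl fun l _ => by ring

theorem phi_eq {r : ℕ} {ι : Type} [Fintype ι] (c : ι → Fin r → ℕ) (b : ι → ℕ)
    (F : ι → ℕ → SignType) (N y p : ℕ)
    (h : ∀ z ∈ ib r y, ∀ j, lin (c j) z + b j * p < N) (z : Fin r → ℕ) (hz : z ∈ rb r N) :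
    Phi (fun s : SignType => (s : ℝ)) (cX c) (XX r F y) N (uX r b p) z =
      if z ∈ ib r y then ∏ j, ((F j (lin (c j) z + b j * p) : SignType) : ℝ) else 0 := by
  unfold Phi
  rw [Fintype.prod_sum_type]
  have e1 : ∀ l : Fin r, (lin (cX c (Sum.inr l)) z + uX r b p (Sum.inr l)) % N = z l := by
    intro l
    change (lin (Pi.single l 1) z + 0) % N = z l
    rw [lin_single, add_zero, Nat.mod_eq_of_lt (mem_rb.1 hz l)]
  split_ifs with hi
  · have h1 : ∏ l : Fin r, ((XX r F y (Sum.inr l)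
        ((lin (cX c (Sum.inr l)) z + uX r b p (Sum.inr l)) % N) : SignType) : ℝ) = 1 := by
      refine Finset.prod_eq_one fun l _ => ?_
      rw [e1]
      change (((if 1 ≤ z l ∧ z l ≤ y then 1 else 0 : SignType)) : ℝ) = 1
      rw [if_pos (mem_ib.1 hi l)]
      rfl
    rw [h1, mul_one]
    refine Finset.prod_congr rfl fun j _ => ?_
    change ((F j ((lin (c j) z + b j * p) % N) : SignType) : ℝ) = _
    rw [Nat.mod_eq_of_lt (h z hi j)]
  · have h1 : ∃ l, ¬ (1 ≤ z l ∧ z l ≤ y) := by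
      by_contra hcon
      push Not at hcon
      exact hi (mem_ib.2 hcon)
    obtain ⟨l, hl⟩ := h1
    have h2 : ∏ l : Fin r, ((XX r F y (Sum.inr l)
        ((lin (cX c (Sum.inr l)) z + uX r b p (Sum.inr l)) % N) : SignType) : ℝ) = 0 := by
      refine Finset.prod_eq_zero (Finset.mem_univ l) ?_
      rw [e1]
      change (((if 1 ≤ z l ∧ z l ≤ y then 1 else 0 : SignType)) : ℝ) = 0
      rw [if_neg hl]
      rfl
    rw [h2, mul_zero]

theorem t_UNF : S_UNF := by
  classical
  intro r ι _ c b F N y p hp hy h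
  have hsub : ib r y ⊆ rb r N := fun z hz => mem_rb.2 fun l => (mem_ib.1 hz l).2.trans_lt hy
  constructor
  · rw [Finset.sum_congr rfl (fun z hz => phi_eq c b F N y p h z hz), Finset.sum_ite_mem,
      Finset.inter_eq_right.2 hsub]
  · have h1 : ∀ z ∈ rb r N, (if ∀ l, p ∣ z l then
        Phi (fun s : SignType => (s : ℝ)) (cX c) (XX r F y) N (uX r b p) z else 0) =
        if z ∈ (ib r y).filter (fun z => ∀ l, p ∣ z l) then
          ∏ j, ((F j (lin (c j) z + b j * p) : SignType) : ℝ) else 0 := by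
      intro z hz
      rw [phi_eq c b F N y p h z hz]
      by_cases h2 : ∀ l, p ∣ z l
      · by_cases h3 : z ∈ ib r y
        · rw [if_pos h2, if_pos h3, if_pos (Finset.mem_filter.2 ⟨h3, h2⟩)]
        · rw [if_pos h2, if_neg h3, if_neg (fun h4 => h3 (Finset.mem_filter.1 h4).1)]
      · rw [if_neg h2, if_neg (fun h4 => h2 (Finset.mem_filter.1 h4).2)]
    rw [Finset.sum_congr rfl h1, Finset.sum_ite_mem,
      Finset.inter_eq_right.2 ((Finset.filter_subset _ _).trans hsub)]
    symm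
    refine Finset.sum_bij (fun w _ => fun l => p * w l) ?_ ?_ ?_ ?_
    · intro w hw
      refine Finset.mem_filter.2 ⟨mem_ib.2 fun l => ?_, fun l => Dvd.intro _ rfl⟩
      obtain ⟨h2, h3⟩ := mem_ib.1 hw l
      refine ⟨Nat.mul_pos hp h2, ?_⟩
      calc p * w l ≤ p * (y / p) := Nat.mul_le_mul_left _ h3
        _ ≤ y := Nat.mul_div_le _ _
    · intro w _ w' _ hww
      funext l
      exact Nat.eq_of_mul_eq_mul_left hp (congrFun hww l)
    · intro z hz
      obtain ⟨h2, h3⟩ := Finset.mem_filter.1 hz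
      refine ⟨fun l => z l / p, mem_ib.2 fun l => ⟨?_, ?_⟩, ?_⟩
      · exact Nat.div_pos (Nat.le_of_dvd (mem_ib.1 h2 l).1 (h3 l)) hp
      · exact Nat.div_le_div_right (mem_ib.1 h2 l).2
      · funext l
        exact Nat.mul_div_cancel' (h3 l)
    · intro w _
      refine Finset.prod_congr rfl fun j _ => ?_
      rw [lin_mul]
      congr 2
      ring

end Pool.Agent.N781.G.UNF
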